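import Pool.Agent.P.MP_ec7d96_lc.Omega

/-! A set with the Cantor cube as a remainder carries an invariant dyadic system. -/

namespace Pool.Agent.P.MP_ec7d96_lc

open Pool.Agent.Lib.PermModel Pool.Agent.Lib.PermModel.NF Pool.Agent.Lib.PermModel.VA

variable {A : Type} {F : NF A}

section top
variable {Y T : F.N}

theorem top_sub (h : IsTop F.str Y T) {U : F.N} (hU : U ∈ ex T) : ex U ⊆ ex Y :=
  (h.2.1.2 U hU).2

theorem top_iInter (h : IsTop F.str Y T) {D : Set F.N} (hD : D.Finite) (hT : D ⊆ ex T) :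
    ∃ I ∈ ex T, ∀ z, z ∈ ex I ↔ z ∈ ex Y ∧ ∀ U ∈ D, z ∈ ex U := by
  induction D, hD using Set.Finite.induction_on with
  | empty => exact ⟨Y, h.2.2.1, by simp⟩
  | @insert a s _ _ ih =>
    obtain ⟨I, hI, h1⟩ := ih fun U hU => hT (Or.inr hU)
    obtain ⟨J, hJ⟩ := exists_inter a I
    refine ⟨J, h.2.2.2.1 a I J (hT (Or.inl rfl)) hI hJ, fun z => (hJ.2 z).trans ?_⟩
    change z ∈ ex a ∧ z ∈ ex I ↔ _
    rw [h1, Set.forall_mem_insert]
    tauto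

theorem top_iUnion (h : IsTop F.str Y T) {D : Set F.N} (hD : D.Finite) (hT : D ⊆ ex T) :
    ∃ I ∈ ex T, ∀ z, z ∈ ex I ↔ ∃ U ∈ D, z ∈ ex U := by
  obtain ⟨C, hC⟩ := exists_setOf_finite (P := fun U => U ∈ D) hD
  obtain ⟨I, hI⟩ := F.isZFA.union C
  refine ⟨I, h.2.2.2.2 C I ⟨hC.1, fun U hU => hT ((hC.2 U).mp hU)⟩ hI, fun z => (hI.2 z).trans ?_⟩
  exact exists_congr fun U => and_congr_left fun _ => hC.2 U

theorem cpt_cover (h : IsCpt F.str Y T) (Q : F.N → Prop) {S : Set F.N} (hS : S.Finite)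
    (hQ : ∀ g (hg : g ∈ F.G), sm hg T = T → (∀ s ∈ S, sm hg s = s) → ∀ U, Q U → Q (sm hg U))
    (hc : ∀ y ∈ ex Y, ∃ U ∈ ex T, Q U ∧ y ∈ ex U) :
    ∃ D : Set F.N, D.Finite ∧ (∀ U ∈ D, U ∈ ex T ∧ Q U) ∧ ∀ y ∈ ex Y, ∃ U ∈ D, y ∈ ex U := by
  obtain ⟨H, hH, hfix⟩ := exists_fix_finiteN (F := F) (hS.insert T)
  obtain ⟨C, hC⟩ := exists_sep T Q hH (fun g hg => hfix g hg T (Or.inl rfl))
    fun g hg U _ hU => hQ g _ (sm_eq _ (hfix g hg T (Or.inl rfl)))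
      (fun s hs => sm_eq _ (hfix g hg s (Or.inr hs))) U hU
  obtain ⟨D, h1, h2, h3⟩ := h C ⟨hC.1, fun U hU => ((hC.2 U).mp hU).1⟩ fun y hy => by
    obtain ⟨U, a1, a2, a3⟩ := hc y hy
    exact ⟨U, (hC.2 U).mpr ⟨a1, a2⟩, a3⟩
  exact ⟨ex D, (isFin_iff D).mp h2, fun U hU => (hC.2 U).mp (h1.2 U hU), h3⟩

theorem disj_sm {g : Equiv.Perm A} (hg : g ∈ F.G) {U V : F.N} (h : Disjoint (ex U) (ex V)) :
    Disjoint (ex (sm hg U)) (ex (sm hg V)) := by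
  rw [ex_sm, ex_sm]
  exact Set.disjoint_image_of_injective (sm_injective hg) h

theorem sub_sm {g : Equiv.Perm A} (hg : g ∈ F.G) {U V : F.N} (h : ex U ⊆ ex V) :
    ex (sm hg U) ⊆ ex (sm hg V) := by
  rw [ex_sm, ex_sm]
  exact Set.image_mono h

/-- Normality: disjoint closed sets have disjoint neighbourhoods. -/
theorem normal (ht : IsTop F.str Y T) (hh : IsHaus F.str Y T) (hc : IsCpt F.str Y T)
    {a b : F.N} (haY : ex a ⊆ ex Y) (hab : Disjoint (ex a) (ex b))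
    (ha : ∀ y ∈ ex Y, y ∉ ex a → ∃ U ∈ ex T, y ∈ ex U ∧ Disjoint (ex U) (ex a))
    (hb : ∀ y ∈ ex Y, y ∉ ex b → ∃ U ∈ ex T, y ∈ ex U ∧ Disjoint (ex U) (ex b))
    (hbY : ex b ⊆ ex Y) :
    ∃ U ∈ ex T, ∃ U' ∈ ex T, ex a ⊆ ex U ∧ ex b ⊆ ex U' ∧ Disjoint (ex U) (ex U') := by
  have step : ∀ p ∈ ex a, ∃ N ∈ ex T, ∃ O ∈ ex T, p ∈ ex N ∧ ex b ⊆ ex O ∧
      Disjoint (ex N) (ex O) := by
    intro p hp
    obtain ⟨D, h1, h2, h3⟩ := cpt_cover hc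
      (fun O => (∃ N ∈ ex T, p ∈ ex N ∧ Disjoint (ex N) (ex O)) ∨ Disjoint (ex O) (ex b))
      (S := {p, b}) (Set.toFinite _) (by
        rintro g hg hT hs O (⟨N, a1, a2, a3⟩ | a1)
        · refine Or.inl ⟨sm hg N, ?_, ?_, disj_sm hg a3⟩
          · rw [← hT]; exact (mem_sm hg _ _).mpr a1
          · rw [← hs p (by simp)]; exact (mem_sm hg _ _).mpr a2
        · rw [← hs b (by simp)]; exact Or.inr (disj_sm hg a1)) (by
        intro y hy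
        by_cases hyb : y ∈ ex b
        · obtain ⟨N, O, a1, a2, a3, a4, a5⟩ := hh p y (haY hp) hy
            (by rintro rfl; exact Set.disjoint_left.mp hab hp hyb)
          exact ⟨O, a2, Or.inl ⟨N, a1, a3, Set.disjoint_left.mpr a5⟩, a4⟩
        · obtain ⟨U, a1, a2, a3⟩ := hb y hy hyb
          exact ⟨U, a1, Or.inr a3, a2⟩)
    let D' := {O | O ∈ D ∧ ∃ N ∈ ex T, p ∈ ex N ∧ Disjoint (ex N) (ex O)}
    have hD' : D'.Finite := h1.subset fun O hO => hO.1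
    choose! n n1 n2 n3 using fun O (hO : O ∈ D') => hO.2
    obtain ⟨N, a1, a2⟩ := top_iInter ht (hD'.image n) (by rintro _ ⟨O, hO, rfl⟩; exact n1 O hO)
    obtain ⟨O, b1, b2⟩ := top_iUnion ht hD' fun O hO => (h2 O hO.1).1
    refine ⟨N, a1, O, b1, (a2 p).mpr ⟨haY hp, by rintro _ ⟨O, hO, rfl⟩; exact n2 O hO⟩,
      fun y hy => ?_, Set.disjoint_left.mpr fun z hz hz' => ?_⟩
    · obtain ⟨U, c1, c2⟩ := h3 y (hbY hy)
      refine (b2 y).mpr ⟨U, ⟨c1, (h2 U c1).2.resolve_right fun h => ?_⟩, c2⟩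
      exact Set.disjoint_left.mp h c2 hy
    · obtain ⟨U, c1, c2⟩ := (b2 z).mp hz'
      exact Set.disjoint_left.mp (n3 U c1) (((a2 z).mp hz).2 _ ⟨U, c1, rfl⟩) c2
  obtain ⟨D, h1, h2, h3⟩ := cpt_cover hc
    (fun N => (∃ O ∈ ex T, ex b ⊆ ex O ∧ Disjoint (ex N) (ex O)) ∨ Disjoint (ex N) (ex a))
    (S := {a, b}) (Set.toFinite _) (by
      rintro g hg hT hs N (⟨O, a1, a2, a3⟩ | a1)
      · refine Or.inl ⟨sm hg O, ?_, ?_, disj_sm hg a3⟩
        · rw [← hT]; exact (mem_sm hg _ _).mpr a1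
        · rw [← hs b (by simp)]; exact sub_sm hg a2
      · rw [← hs a (by simp)]; exact Or.inr (disj_sm hg a1)) (by
      intro y hy
      by_cases hya : y ∈ ex a
      · obtain ⟨N, a1, O, a2, a3, a4, a5⟩ := step y hya
        exact ⟨N, a1, Or.inl ⟨O, a2, a4, a5⟩, a3⟩
      · obtain ⟨U, a1, a2, a3⟩ := ha y hy hya
        exact ⟨U, a1, Or.inr a3, a2⟩)
  let D' := {N | N ∈ D ∧ ∃ O ∈ ex T, ex b ⊆ ex O ∧ Disjoint (ex N) (ex O)}
  have hD' : D'.Finite := h1.subset fun O hO => hO.1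
  choose! n n1 n2 n3 using fun O (hO : O ∈ D') => hO.2
  obtain ⟨O, a1, a2⟩ := top_iInter ht (hD'.image n) (by rintro _ ⟨O, hO, rfl⟩; exact n1 O hO)
  obtain ⟨N, b1, b2⟩ := top_iUnion ht hD' fun O hO => (h2 O hO.1).1
  refine ⟨N, b1, O, a1, fun y hy => ?_,
    fun y hy => (a2 y).mpr ⟨hbY hy, by rintro _ ⟨O, hO, rfl⟩; exact n2 O hO hy⟩,
    Set.disjoint_left.mpr fun z hz hz' => ?_⟩
  · obtain ⟨U, c1, c2⟩ := h3 y (haY hy)
    refine (b2 y).mpr ⟨U, ⟨c1, (h2 U c1).2.resolve_right fun h => ?_⟩, c2⟩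
    exact Set.disjoint_left.mp h c2 hy
  · obtain ⟨U, c1, c2⟩ := (b2 z).mp hz
    exact Set.disjoint_left.mp (n3 U c1) c2 (((a2 z).mp hz').2 _ ⟨U, c1, rfl⟩)

/-- Finitely many points can be removed from a neighbourhood. -/
theorem avoid (ht : IsTop F.str Y T) (hh : IsHaus F.str Y T) {U y : F.N} (hU : U ∈ ex T)
    (hy : y ∈ ex U) {Z : Set F.N} (hZ : Z.Finite) (hZY : Z ⊆ ex Y) (hyZ : y ∉ Z) :
    ∃ V ∈ ex T, y ∈ ex V ∧ ex V ⊆ ex U ∧ ∀ z ∈ Z, z ∉ ex V := by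
  have : ∀ z ∈ Z, ∃ N ∈ ex T, y ∈ ex N ∧ z ∉ ex N := by
    intro z hz
    obtain ⟨N, O, a1, -, a3, a4, a5⟩ := hh y z (top_sub ht hU hy) (hZY hz)
      (by rintro rfl; exact hyZ hz)
    exact ⟨N, a1, a3, fun h => a5 z h a4⟩
  choose! n n1 n2 n3 using this
  obtain ⟨V, a1, a2⟩ := top_iInter ht ((hZ.image n).insert U)
    (by rintro _ (rfl | ⟨z, hz, rfl⟩); exacts [hU, n1 z hz])
  refine ⟨V, a1, (a2 y).mpr ⟨top_sub ht hU hy, ?_⟩, fun z hz => ((a2 z).mp hz).2 U (Or.inl rfl),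
    fun z hz h => n3 z hz (((a2 z).mp h).2 _ (Or.inr ⟨z, hz, rfl⟩))⟩
  rintro _ (rfl | ⟨z, hz, rfl⟩)
  exacts [hy, n2 z hz]

end top

theorem exists_cube : ∃ c : (ℕ → Bool) → F.N, (∀ f, PtC F.str f ↔ ∃ k, f = c k) ∧
    (∀ k x y, F.str.App (c k) x y ↔ ∃ i, x = F.nN i ∧ y = bitN F (k i)) ∧
    ∀ k g (hg : g ∈ F.G), sm hg (c k) = c k := by
  obtain ⟨H, hH⟩ := F.ne
  choose c hc happ using fun k : ℕ → Bool => exists_graph F.nN (fun i => bitN F (k i))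
    F.nN_injective hH fun g _ i => ⟨smul_num g i, smul_num g _⟩
  have e0 : ∀ b, F.str.IsSetOf b (fun _ => False) ↔ b = F.nN 0 := fun b =>
    isSetOf_iff_eq F.isSetOf_zero
  have e1 : ∀ b, F.str.IsSetOf b (fun z => F.str.IsSetOf z (fun _ => False)) ↔ b = F.nN 1 :=
    fun b => isSetOf_iff_eq (IsSetOf.congr (F.isSetOf_succ 0) fun z => by rw [mem_nN, e0]; simp)
  have hN : F.str.IsNat = fun x => ∃ i, x = F.nN i := funext fun x => propext (isNat_iff x)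
  have ext : ∀ f f' : F.N, F.str.IsFun f F.str.IsNat → F.str.IsFun f' F.str.IsNat →
      (∀ x y, F.str.App f x y → F.str.App f' x y) → (∀ x y, F.str.App f' x y → F.str.App f x y) →
      f = f' := by
    intro f f' h h' a1 a2
    refine F.isZFA.ext f f' h.1 h'.1 fun p => ⟨fun hp => ?_, fun hp => ?_⟩
    · obtain ⟨x, y, -, e⟩ := h.2.1 p hp
      rw [isPair_iff] at e
      subst e
      exact (app_iff _ _ _).mp (a1 x y ((app_iff _ _ _).mpr hp))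
    · obtain ⟨x, y, -, e⟩ := h'.2.1 p hp
      rw [isPair_iff] at e
      subst e
      exact (app_iff _ _ _).mp (a2 x y ((app_iff _ _ _).mpr hp))
  refine ⟨c, fun f => ⟨fun ⟨h1, h2⟩ => ?_, ?_⟩, happ, fun k g hg => ?_⟩
  · have : ∀ i, ∃ b : Bool, F.str.App f (F.nN i) (bitN F b) := by
      intro i
      obtain ⟨y, hy, -⟩ := h1.2.2 _ ((isNat_iff _).mpr ⟨i, rfl⟩)
      rcases h2 _ _ hy with h | h
      · exact ⟨false, by rw [e0] at h; rwa [h] at hy⟩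
      · exact ⟨true, by rw [e1] at h; rwa [h] at hy⟩
    choose k hk using this
    refine ⟨k, ext _ _ h1 (hN ▸ hc k) (fun x y h => ?_) fun x y h => ?_⟩
    · obtain ⟨i, rfl⟩ := (isNat_iff _).mp (IsFun.dom h1 h)
      exact (happ _ _ _).mpr ⟨i, rfl, IsFun.unique h1 h (hk i)⟩
    · obtain ⟨i, rfl, rfl⟩ := (happ _ _ _).mp h
      exact hk i
  · rintro ⟨k, rfl⟩
    refine ⟨hN ▸ hc k, fun i b h => ?_⟩
    obtain ⟨j, -, rfl⟩ := (happ _ _ _).mp h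
    rw [e0, e1, bitN]
    cases k j <;> simp
  · refine sm_eq hg (smul_eq_of_forall (H := F.G) (hc k).1 (fun g hg y hy => ?_) hg)
    obtain ⟨x, z, -, e⟩ := (hc k).2.1 ⟨y, (c k).2.of_mem hy⟩ hy
    rw [isPair_iff] at e
    obtain ⟨i, rfl, rfl⟩ := (happ k x z).mp ((app_iff _ _ _).mpr (e ▸ hy))
    have e' : y = opair (num i) (num (if k i then 1 else 0)) := congrArg Subtype.val e
    have : g • y = y := by rw [e', smul_opair, smul_num, smul_num]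
    rwa [this]

theorem tree_of_remainder {X : F.N} (h : IsRemainder F.str X (PtC F.str) (OpC F.str)) :
    ∃ H, ∃ hH : H ∈ F.B, ∃ W : ℕ → (ℕ → Bool) → F.N,
      (∀ n k, ex (W n k) ⊆ ex X ∧ (ex (W n k)).Infinite) ∧
      (∀ n k g (hg : g ∈ H), (ex (sm (F.le H hH hg) (W n k)) \ ex (W n k)).Finite) ∧
      (∀ n k k', (∀ i ≤ n, k i = k' i) → (ex (W n k) \ ex (W n k')).Finite) ∧
      (∀ n k, (ex (W (n + 1) k) \ ex (W n k)).Finite) ∧
      ∀ n k k', (∃ i ≤ n, k i ≠ k' i) → (ex (W (n + 1) k) ∩ ex (W n k')).Finite := by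
  obtain ⟨Y, T, e, h, ht, hh, hc, he, hdisc, hdense, hi, hsurj, hopen⟩ := h
  obtain ⟨c, c1, c2, c3⟩ := exists_cube (F := F)
  have cinj : Function.Injective c := by
    intro k k' hk
    funext i
    obtain ⟨j, a1, a2⟩ := (c2 k' _ _).mp (hk ▸ (c2 k _ _).mpr ⟨i, rfl, rfl⟩)
    rw [← F.nN_injective a1] at a2
    exact bitN_injective a2
  choose r hr using fun k => hsurj (c k) ((c1 _).mpr ⟨k, rfl⟩)
  have hrY := fun k => IsFun.dom hi.1 (hr k)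
  have rinj : Function.Injective r := fun k k' hk => cinj (IsFun.unique hi.1 (hr k) (hk ▸ hr k'))
  choose! em hem using fun x (hx : x ∈ ex X) => (he.1.2.2 x hx).exists
  have hYc : ∀ y ∈ ex Y, (∃ x ∈ ex X, y = em x) ∨ ∃ k, y = r k := by
    intro y hy
    by_cases h1 : ∃ x, F.str.App e x y
    · obtain ⟨x, hx⟩ := h1
      exact Or.inl ⟨x, IsFun.dom he.1 hx, IsFun.unique he.1 hx (hem x (IsFun.dom he.1 hx))⟩
    · obtain ⟨f, hf, -⟩ := hi.1.2.2 y ⟨hy, h1⟩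
      obtain ⟨k, rfl⟩ := (c1 f).mp (hi.2.1 _ _ hf)
      exact Or.inr ⟨k, hi.2.2 _ _ _ hf (hr k)⟩
  have hemY : ∀ x ∈ ex X, em x ∈ ex Y := fun x hx => he.2.1 _ _ (hem x hx)
  have hne : ∀ x ∈ ex X, ∀ k, r k ≠ em x := fun x hx k e' => (hrY k).2 ⟨x, e' ▸ hem x hx⟩
  have iso : ∀ x ∈ ex X, ∃ U ∈ ex T, ex U = {em x} := by
    intro x hx
    obtain ⟨U, hU, h1⟩ := hdisc x _ (hem x hx)
    refine ⟨U, hU, Set.eq_singleton_iff_unique_mem.mpr ⟨(h1 x _ (hem x hx)).mpr rfl, ?_⟩⟩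
    intro y hy
    by_contra hy'
    obtain ⟨V, a1, a2, a3, a4⟩ := avoid ht hh hU hy (Set.finite_singleton (em x))
      (by simpa using hemY x hx) hy'
    obtain ⟨x', y', b1, b2⟩ := hdense V y a1 a2
    have := (h1 x' y' b1).mp (a3 b2)
    subst this
    exact a4 y' (IsFun.unique he.1 b1 (hem _ hx)) b2
  have cof : ∀ U ∈ ex T, ∀ U' ∈ ex T, (∀ k, r k ∈ ex U ∨ r k ∈ ex U') →
      {x | x ∈ ex X ∧ em x ∉ ex U ∧ em x ∉ ex U'}.Finite := by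
    intro U hU U' hU' hk
    obtain ⟨D, h1, h2, h3⟩ := cpt_cover hc (fun O => O = U ∨ O = U' ∨ (ex O).Finite)
      (S := {U, U'}) (Set.toFinite _) (by
        rintro g hg - hs O (rfl | rfl | a1)
        · exact Or.inl (hs _ (by simp))
        · exact Or.inr (Or.inl (hs _ (by simp)))
        · rw [ex_sm]; exact Or.inr (Or.inr (a1.image _))) (by
        intro y hy
        rcases hYc y hy with ⟨x, hx, rfl⟩ | ⟨k, rfl⟩
        · obtain ⟨O, a1, a2⟩ := iso x hx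
          exact ⟨O, a1, Or.inr (Or.inr (a2 ▸ Set.finite_singleton _)), a2 ▸ rfl⟩
        · rcases hk k with a | a
          exacts [⟨U, hU, Or.inl rfl, a⟩, ⟨U', hU', Or.inr (Or.inl rfl), a⟩])
    have h4 : (⋃ O ∈ {O | O ∈ D ∧ (ex O).Finite}, ex O).Finite :=
      (h1.subset fun O hO => hO.1).biUnion fun O hO => hO.2
    refine Set.Finite.of_finite_image (f := em) (h4.subset ?_) fun x hx x' hx' e' =>
      he.2.2 _ _ _ (hem x hx.1) (e' ▸ hem x' hx'.1)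
    rintro _ ⟨x, ⟨a1, a2, a3⟩, rfl⟩
    obtain ⟨O, b1, b2⟩ := h3 _ (hemY x a1)
    rcases (h2 O b1).2 with rfl | rfl | b3
    · exact (a2 b2).elim
    · exact (a3 b2).elim
    · exact Set.mem_biUnion (show O ∈ {O | O ∈ D ∧ (ex O).Finite} from ⟨b1, b3⟩) b2
  obtain ⟨H, hH, hfix⟩ := exists_fix_finiteN (F := F) (S := {X, T, e, h}) (Set.toFinite _)
  have fX := fun g hg => sm_eq (F.le H hH hg) (hfix g hg X (by simp))
  have fT := fun g hg => sm_eq (F.le H hH hg) (hfix g hg T (by simp))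
  have fe := fun g hg => sm_eq (F.le H hH hg) (hfix g hg e (by simp))
  have fh := fun g hg => sm_eq (F.le H hH hg) (hfix g hg h (by simp))
  have rsm : ∀ g (hg : g ∈ H) k, sm (F.le H hH hg) (r k) = r k := by
    intro g hg k
    have := app_sm (F.le H hH hg) (hr k)
    rw [fh g hg, c3] at this
    exact hi.2.2 _ _ _ this (hr k)
  have esm : ∀ g (hg : g ∈ H), ∀ x ∈ ex X, em (sm (F.le H hH hg) x) = sm (F.le H hH hg) (em x) := by
    intro g hg x hx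
    have := app_sm (F.le H hH hg) (hem x hx)
    rw [fe g hg] at this
    exact IsFun.unique he.1 (hem _ (IsFun.dom he.1 this)) this
  have opn : ∀ (n : ℕ) (Z : Set (ℕ → Bool)), (∀ k k', (∀ i ≤ n, k i = k' i) → k ∈ Z → k' ∈ Z) →
      ∃ U ∈ ex T, ∀ k, r k ∈ ex U ↔ k ∈ Z := by
    intro n Z hZ
    obtain ⟨V, hV⟩ := exists_setOf (F := F) (fun z => z ∈ c '' Z) (small_image _ _) hH
      (by rintro g hg _ ⟨k, hk, rfl⟩; exact ⟨k, hk, (c3 k g _).symm⟩)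
    obtain ⟨U, hU, h1⟩ := (hopen V ⟨hV.1, fun z hz => by
      obtain ⟨k, -, rfl⟩ := (hV.2 z).mp hz
      exact (c1 _).mpr ⟨k, rfl⟩⟩).mp (by
      intro f hf
      obtain ⟨k, hk, rfl⟩ := (hV.2 f).mp hf
      refine ⟨F.nN (n + 1), (isNat_iff _).mpr ⟨_, rfl⟩, fun g hg h2 => ?_⟩
      obtain ⟨k', rfl⟩ := (c1 g).mp hg
      refine (hV.2 _).mpr ⟨k', hZ k k' (fun i hi => ?_) hk, rfl⟩
      obtain ⟨j, a1, a2⟩ := (c2 _ _ _).mp (h2 _ _ ((mem_nN _ _).mpr ⟨i, by omega, rfl⟩)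
        ((c2 k _ _).mpr ⟨i, rfl, rfl⟩))
      rw [← F.nN_injective a1] at a2
      exact bitN_injective a2)
    exact ⟨U, hU, fun k => (h1 _ _ (hr k)).trans ((hV.2 _).trans cinj.mem_set_image)⟩
  have clo : ∀ (n : ℕ) (Z : Set (ℕ → Bool)), (∀ k k', (∀ i ≤ n, k i = k' i) → k ∉ Z → k' ∉ Z) →
      ∃ a : F.N, ex a = r '' Z ∧
        ∀ y ∈ ex Y, y ∉ ex a → ∃ U ∈ ex T, y ∈ ex U ∧ Disjoint (ex U) (ex a) := by
    intro n Z hZ
    obtain ⟨a, ha⟩ := exists_setOf (F := F) (fun z => z ∈ r '' Z) (small_image _ _) hH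
      (by rintro g hg _ ⟨k, hk, rfl⟩; exact ⟨k, hk, (rsm g hg k).symm⟩)
    have ea : ex a = r '' Z := Set.ext ha.2
    refine ⟨a, ea, fun y hy hya => ?_⟩
    rw [ea] at hya ⊢
    rcases hYc y hy with ⟨x, hx, rfl⟩ | ⟨k, rfl⟩
    · obtain ⟨O, a1, a2⟩ := iso x hx
      exact ⟨O, a1, a2 ▸ rfl, by rw [a2]; simpa using hya⟩
    · obtain ⟨U, a1, a2⟩ := opn n Zᶜ hZ
      refine ⟨U, a1, (a2 k).mpr fun h => hya ⟨k, h, rfl⟩, Set.disjoint_left.mpr ?_⟩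
      rintro _ h1 ⟨k', hk', rfl⟩
      exact (a2 k').mp h1 hk'
  let Gd : Set (ℕ → Bool) → F.N → Prop := fun Z W => ∃ U ∈ ex T, ∃ U' ∈ ex T,
    (∀ k ∈ Z, r k ∈ ex U) ∧ (∀ k, k ∉ Z → r k ∈ ex U') ∧ Disjoint (ex U) (ex U') ∧
      ∀ x, x ∈ ex W ↔ x ∈ ex X ∧ em x ∈ ex U
  let cy : ℕ → (ℕ → Bool) → Set (ℕ → Bool) := fun n k => {k' | ∀ i ≤ n, k' i = k i}
  have hex : ∀ n k, ∃ W, Gd (cy n k) W := by
    intro n k
    obtain ⟨a, a1, a2⟩ := clo n (cy n k) fun p q hpq hp hq => hp fun i hi =>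
      (hpq i hi).trans (hq i hi)
    obtain ⟨b, b1, b2⟩ := clo n (cy n k)ᶜ fun p q hpq hp hq => hq fun i hi =>
      (hpq i hi).symm.trans (not_not.mp hp i hi)
    obtain ⟨U, hU, U', hU', d1, d2, d3⟩ := normal ht hh hc (a := a) (b := b)
      (by rw [a1]; rintro _ ⟨k, -, rfl⟩; exact (hrY k).1)
      (by rw [a1, b1]; exact Set.disjoint_image_of_injective rinj disjoint_compl_right) a2 b2
      (by rw [b1]; rintro _ ⟨k, -, rfl⟩; exact (hrY k).1)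
    obtain ⟨K, hK, hKf⟩ := exists_fix_finiteN (F := F) (S := {X, e, U}) (Set.toFinite _)
    obtain ⟨W, hW⟩ := exists_sep X (fun x => ∃ y, F.str.App e x y ∧ y ∈ ex U) hK
      (fun g hg => hKf g hg X (by simp)) (by
        rintro g hg x - ⟨y, h1, h2⟩
        have h3 := app_sm (F.le K hK hg) h1
        have h4 := (mem_sm (F.le K hK hg) _ _).mpr h2
        rw [sm_eq _ (hKf g hg e (by simp))] at h3
        rw [sm_eq _ (hKf g hg U (by simp))] at h4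
        exact ⟨_, h3, h4⟩)
    refine ⟨W, U, hU, U', hU', fun p hp => d1 (a1 ▸ ⟨p, hp, rfl⟩),
      fun p hp => d2 (b1 ▸ ⟨p, hp, rfl⟩), d3, fun x => (hW.2 x).trans (and_congr_right fun hx => ?_)⟩
    exact ⟨fun ⟨y, h1, h2⟩ => IsFun.unique he.1 h1 (hem x hx) ▸ h2, fun h1 => ⟨_, hem x hx, h1⟩⟩
  have hmono : ∀ Z Z' W W', Z ⊆ Z' → Gd Z W → Gd Z' W' → (ex W \ ex W').Finite := by
    rintro Z Z' W W' hZ ⟨U, -, U', hU', -, a2, a3, a4⟩ ⟨V, hV, -, -, b1, -, -, b4⟩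
    refine (cof U' hU' V hV fun k => ?_).subset ?_
    · by_cases hk : k ∈ Z
      exacts [Or.inr (b1 k (hZ hk)), Or.inl (a2 k hk)]
    · rintro x ⟨h1, h2⟩
      rw [a4] at h1
      exact ⟨h1.1, Set.disjoint_left.mp a3 h1.2, fun h3 => h2 ((b4 x).mpr ⟨h1.1, h3⟩)⟩
  have hdis : ∀ Z Z' W W', Disjoint Z Z' → Gd Z W → Gd Z' W' → (ex W ∩ ex W').Finite := by
    rintro Z Z' W W' hZ ⟨U, -, U', hU', -, a2, a3, a4⟩ ⟨V, -, V', hV', -, b2, b3, b4⟩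
    refine (cof U' hU' V' hV' fun k => ?_).subset ?_
    · by_cases hk : k ∈ Z
      exacts [Or.inr (b2 k (Set.disjoint_left.mp hZ hk)), Or.inl (a2 k hk)]
    · rintro x ⟨h1, h2⟩
      rw [a4] at h1
      rw [b4] at h2
      exact ⟨h1.1, Set.disjoint_left.mp a3 h1.2, Set.disjoint_left.mp b3 h2.2⟩
  have hsm : ∀ Z W g (hg : g ∈ H), Gd Z W → Gd Z (sm (F.le H hH hg) W) := by
    rintro Z W g hg ⟨U, hU, U', hU', a1, a2, a3, a4⟩
    have hG := F.le H hH hg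
    refine ⟨sm hG U, ?_, sm hG U', ?_, fun k hk => ?_, fun k hk => ?_, disj_sm hG a3, fun x => ?_⟩
    · rw [← fT g hg]; exact (mem_sm hG _ _).mpr hU
    · rw [← fT g hg]; exact (mem_sm hG _ _).mpr hU'
    · rw [← rsm g hg k]; exact (mem_sm hG _ _).mpr (a1 k hk)
    · rw [← rsm g hg k]; exact (mem_sm hG _ _).mpr (a2 k hk)
    · obtain ⟨x, rfl⟩ := sm_surjective hG x
      have e1 : sm hG x ∈ ex X ↔ x ∈ ex X := by
        have := mem_sm hG x X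
        rwa [fX g hg] at this
      rw [mem_sm, a4, e1]
      exact and_congr_right fun hx => by rw [esm g hg x hx, mem_sm]
  choose W hW using hex
  refine ⟨H, hH, W, fun n k => ?_, fun n k g hg => hmono _ _ _ _ subset_rfl (hsm _ _ g hg (hW n k))
    (hW n k), fun n k k' h => hmono (cy n k) (cy n k') _ _
    (fun p hp i hi => (hp i hi).trans (h i hi)) (hW n k) (hW n k'), fun n k =>
    hmono (cy (n + 1) k) (cy n k) _ _ (fun p hp i hi => hp i (by omega)) (hW _ k) (hW n k),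
    fun n k k' ⟨i, hi, h⟩ => hdis (cy (n + 1) k) (cy n k') _ _ (Set.disjoint_left.mpr fun p hp hp' =>
      h ((hp i (by omega)).symm.trans (hp' i hi))) (hW _ k) (hW n k')⟩
  obtain ⟨U, hU, -, -, a1, -, -, a4⟩ := hW n k
  refine ⟨fun x hx => ((a4 x).mp hx).1, fun hfin => ?_⟩
  obtain ⟨V, b1, b2, b3, b4⟩ := avoid ht hh hU (a1 k fun _ _ => rfl) (hfin.image em)
    (by rintro _ ⟨x, hx, rfl⟩; exact hemY x ((a4 x).mp hx).1)
    (by rintro ⟨x, hx, e'⟩; exact hne x ((a4 x).mp hx).1 k e'.symm)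
  obtain ⟨x, y, d1, d2⟩ := hdense V _ b1 b2
  have hx := IsFun.dom he.1 d1
  rw [IsFun.unique he.1 d1 (hem x hx)] at d2
  exact b4 _ ⟨x, (a4 x).mpr ⟨hx, b3 d2⟩, rfl⟩ d2

end Pool.Agent.P.MP_ec7d96_lc
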