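import Pool.Agent.Lib.PermModel.Defs

/-! Topological notions read inside a structure for set theory with atoms. -/

namespace Pool.Agent.P.MP_ec7d96_lc

open Pool.Agent.Lib.PermModel

variable {M : Type 1} (S : Str M)

/-- `U` is a set all of whose members satisfy `P`. -/
def Sub (U : M) (P : M → Prop) : Prop := ¬ S.atm U ∧ ∀ z, S.mem z U → P z

/-- `T` is a topology on the set `Y`. -/
def IsTop (Y T : M) : Prop :=
  ¬ S.atm Y ∧ Sub S T (fun U => Sub S U (S.mem · Y)) ∧ S.mem Y T ∧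
  (∀ U W I, S.mem U T → S.mem W T → S.IsSetOf I (fun z => S.mem z U ∧ S.mem z W) → S.mem I T) ∧
  ∀ C I, Sub S C (S.mem · T) → S.IsSetOf I (fun z => ∃ U, S.mem U C ∧ S.mem z U) → S.mem I T

/-- The space `(Y, T)` is Hausdorff. -/
def IsHaus (Y T : M) : Prop :=
  ∀ x y, S.mem x Y → S.mem y Y → x ≠ y →
    ∃ U W, S.mem U T ∧ S.mem W T ∧ S.mem x U ∧ S.mem y W ∧ ∀ z, S.mem z U → ¬ S.mem z W

/-- The space `(Y, T)` is compact. -/
def IsCpt (Y T : M) : Prop :=
  ∀ C, Sub S C (S.mem · T) → (∀ y, S.mem y Y → ∃ U, S.mem U C ∧ S.mem y U) →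
    ∃ D, Sub S D (S.mem · C) ∧ S.IsFin D ∧ ∀ y, S.mem y Y → ∃ U, S.mem U D ∧ S.mem y U

/-- `f` is an injective function on the class `P` with values in the class `Q`. -/
def IsInj (f : M) (P Q : M → Prop) : Prop :=
  S.IsFun f P ∧ (∀ x y, S.App f x y → Q y) ∧ ∀ x x' y, S.App f x y → S.App f x' y → x = x'

/-- The space with points `P`, whose open sets are the sets of points satisfying `O`, is a
remainder of the discrete space on `X`: there are a compact Hausdorff space `(Y, T)`, a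
homeomorphic embedding `e` of the discrete space `X` onto a dense subspace, and a homeomorphism
`h` from the complement of the image of `e` onto the space. -/
def IsRemainder (X : M) (P O : M → Prop) : Prop :=
  ∃ Y T e h, IsTop S Y T ∧ IsHaus S Y T ∧ IsCpt S Y T ∧
    IsInj S e (S.mem · X) (S.mem · Y) ∧
    (∀ x y, S.App e x y → ∃ U, S.mem U T ∧ ∀ x' y', S.App e x' y' → (S.mem y' U ↔ x' = x)) ∧
    (∀ U y, S.mem U T → S.mem y U → ∃ x y', S.App e x y' ∧ S.mem y' U) ∧
    IsInj S h (fun y => S.mem y Y ∧ ¬ ∃ x, S.App e x y) P ∧ (∀ k, P k → ∃ y, S.App h y k) ∧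
    ∀ V, Sub S V P → (O V ↔ ∃ U, S.mem U T ∧ ∀ y k, S.App h y k → (S.mem y U ↔ S.mem k V))

/-- The points of omega + 1. -/
def PtW (k : M) : Prop := S.IsNat k ∨ S.IsSetOf k S.IsNat

/-- Open subsets of omega + 1: if omega is a member, so are all large natural numbers. -/
def OpW (V : M) : Prop :=
  ∀ w, S.mem w V → S.IsSetOf w S.IsNat → ∃ n, S.IsNat n ∧ ∀ m, S.IsNat m → S.mem n m → S.mem m V

/-- The points of the Cantor cube: functions from omega to the set of the numerals 0 and 1. -/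
def PtC (f : M) : Prop :=
  S.IsFun f S.IsNat ∧ ∀ i b, S.App f i b →
    S.IsSetOf b (fun _ => False) ∨ S.IsSetOf b (fun z => S.IsSetOf z (fun _ => False))

/-- Open subsets of the Cantor cube. -/
def OpC (V : M) : Prop :=
  ∀ f, S.mem f V → ∃ n, S.IsNat n ∧ ∀ g, PtC S g →
    (∀ i b, S.mem i n → S.App f i b → S.App g i b) → S.mem g V

end Pool.Agent.P.MP_ec7d96_lc
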