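import Pool.Agent.P.MP_ec7d96_lc.Cantor
import Pool.Agent.P.MP_fb2f7f_lc.Main

/-! The set of atoms of the binary tree model has the remainder omega + 1 but not the cube. -/

namespace Pool.Agent.P.MP_ec7d96_lc

open Pool.Agent.Lib.PermModel Pool.Agent.Lib.PermModel.NF Pool.Agent.Lib.PermModel.VA Filter
open Pool.Agent.P.MP_fb2f7f_lc

theorem not_cube {X : FF.N} (hX : ∀ z ∈ ex X, IsAtom z.1) :
    ¬ IsRemainder FF.str X (PtC FF.str) (OpC FF.str) := by
  intro h
  obtain ⟨H, hH, W, w1, w2, w3, w4, w5⟩ := tree_of_remainder h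
  obtain ⟨n₀, T, hT, rfl⟩ := hH
  have fam := exists_family (fun n k => En (W n k)) (fun n k k' h => En_mono (w3 n k k' h))
    (fun n k => En_mono (w4 n k)) (fun n k k' h p => En_disj (w5 n k k' h))
  have hne : ∀ n k, (En (W n k)).Nonempty := fun n k =>
    En_nonempty (fun z hz => hX z ((w1 n k).1 hz)) (w1 n k).2
  obtain ⟨n, k, hnk⟩ : ∃ n k, ∀ p ∈ T, p ∉ En (W n k) := by
    by_contra hn
    push Not at hn
    obtain ⟨a, b, -, hd⟩ := fam 0 fun _ => false
    choose p hp1 hp2 using fun j => hn (a j) (b j)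
    obtain ⟨j, -, j', -, hlt, e⟩ := Set.infinite_univ.exists_lt_map_eq_of_mapsTo
      (fun j _ => hp1 j) hT
    exact hd j j' hlt (p j) (hp2 j) (e ▸ hp2 j')
  obtain ⟨a, b, hsub, hd⟩ := fam n k
  obtain ⟨d₀, hd₀⟩ := exists_depth (W n k)
  choose p hp using fun j => hne (a j) (b j)
  set d := max d₀ n₀ with hdd
  obtain ⟨j, -, j', -, hlt, e⟩ := Set.infinite_univ.exists_lt_map_eq_of_mapsTo
    (f := fun j => tr (p j) d) (fun j _ => show tr (p j) d ∈ {s : Nd | s.len < d + 1} by simp)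
    (finite_len_lt (d + 1))
  have hag : Ag d (p j) (p j') := (tr_eq_tr.mp e).2
  obtain ⟨γ, g1, g2⟩ := exists_restr (m := d) (xorI fun i => xor (p j i) (p j' i))
    (fun q i hi => by rw [xorI_apply, hag i hi]; simp) (p j)
  have hγ : hat γ ∈ Hn n₀ T := by
    refine hat_mem_Hn (fun q => (ag_of_supp g2 q).mono (le_max_right _ _)) fun q hq => g2 q ?_
    intro hq'
    apply hnk q hq
    have := (mem_En_iff hd₀ _).mp (hsub j (hp j))
    rw [mem_En_iff hd₀, tr_eq_tr.mpr ⟨rfl, hq'.mono (le_max_left _ _)⟩]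
    exact this
  have e2 : γ.1 (p j) = p j' := by
    rw [g1 _ (Ag.refl _ _)]
    funext i
    rw [xorI_apply]; simp
  have h5 := En_mono (w2 (a j) (b j) _ hγ) (En_sm γ _ (hp j))
  rw [e2] at h5
  exact hd j j' hlt _ h5 (hp j')

theorem main : ∃ (M : Type 1) (S : Str M), S.IsZFA ∧ ∃ X, ¬ S.atm X ∧
    IsRemainder S X (PtW S) (OpW S) ∧ ¬ IsRemainder S X (PtC S) (OpC S) := by
  obtain ⟨d, hd⟩ := FF.isZFA.atoms
  refine ⟨FF.N, FF.str, FF.isZFA, d, hd.1, remainder_omega (isfbi d ?_),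
    not_cube fun z hz => (hd.2 z).mp hz⟩
  rw [isFin_iff]
  exact Set.infinite_of_injective_forall_mem (f := fun n => atN (tr (fun _ => false) n))
    (fun _ _ h => tr_injective _ (atN_injective h)) fun n =>
      (hd.2 (atN (tr (fun _ => false) n))).mpr ⟨_, rfl⟩

end Pool.Agent.P.MP_ec7d96_lc
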