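import Pool.Agent.P.MP_ec7d96_lc.Defs
import Pool.Agent.Lib.PermModel.Abs

/-! In a permutation model a strongly filterbase infinite set has the remainder omega + 1. -/

namespace Pool.Agent.P.MP_ec7d96_lc

open Pool.Agent.Lib.PermModel Pool.Agent.Lib.PermModel.NF Pool.Agent.Lib.PermModel.VA

variable {A : Type} {F : NF A}

theorem mem_sm {g : Equiv.Perm A} (hg : g ∈ F.G) (x y : F.N) :
    sm hg x ∈ ex (sm hg y) ↔ x ∈ ex y := smul_mem_smul g

theorem sm_eq {g : Equiv.Perm A} (hg : g ∈ F.G) {x : F.N} (h : g • x.1 = x.1) : sm hg x = x :=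
  Subtype.ext h

theorem sm_nN {g : Equiv.Perm A} (hg : g ∈ F.G) (n : ℕ) : sm hg (F.nN n) = F.nN n :=
  Subtype.ext (smul_num g n)

theorem app_sm {g : Equiv.Perm A} (hg : g ∈ F.G) {f x y : F.N} (h : F.str.App f x y) :
    F.str.App (sm hg f) (sm hg x) (sm hg y) := by
  rw [app_iff] at h ⊢
  rw [← sm_opN]
  exact (mem_sm hg _ _).mpr h

theorem ex_sm {g : Equiv.Perm A} (hg : g ∈ F.G) (x : F.N) : ex (sm hg x) = sm hg '' ex x := by
  ext z
  obtain ⟨z, rfl⟩ := sm_surjective hg z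
  rw [mem_sm, (sm_injective hg).mem_set_image]

theorem small_ex (d : F.N) : Small.{0} (ex d) := small_of_subset (small_elts d.1) fun _ hz => hz

theorem exists_sep (d : F.N) (P : F.N → Prop) {H : Subgroup (Equiv.Perm A)} (hH : H ∈ F.B)
    (hd : ∀ g ∈ H, g • d.1 = d.1)
    (h : ∀ g (hg : g ∈ H) x, x ∈ ex d → P x → P (sm (F.le H hH hg) x)) :
    ∃ e, F.str.IsSetOf e fun z => z ∈ ex d ∧ P z := by
  refine exists_setOf _ (small_of_subset (small_elts d.1) fun z hz => hz.1) hH ?_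
  rintro g hg x ⟨h1, h2⟩
  refine ⟨?_, h g hg x h1 h2⟩
  have := (mem_sm (F.le H hH hg) x d).mpr h1
  rwa [sm_eq _ (hd g hg)] at this

theorem exists_diff (U W : F.N) : ∃ T, F.str.IsSetOf T fun z => z ∈ ex U ∧ z ∉ ex W := by
  obtain ⟨H, hH, h⟩ := exists_fix_finiteN (F := F) (S := {U, W}) (Set.toFinite _)
  refine exists_sep U _ hH (fun g hg => h g hg U (by simp)) fun g hg x _ hx hx' => hx ?_
  rwa [← sm_eq (F.le H hH hg) (h g hg W (by simp)), mem_sm] at hx'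

theorem exists_fun (d : F.N) (φ : F.N → F.N) {H : Subgroup (Equiv.Perm A)} (hH : H ∈ F.B)
    (hd : ∀ g ∈ H, g • d.1 = d.1)
    (hφ : ∀ g (hg : g ∈ H) x, φ (sm (F.le H hH hg) x) = sm (F.le H hH hg) (φ x)) :
    ∃ f, F.str.IsFun f (F.str.mem · d) ∧ ∀ x y, F.str.App f x y ↔ x ∈ ex d ∧ y = φ x := by
  have := small_ex d
  obtain ⟨f, hf⟩ := exists_setOf (F := F) (fun p => p ∈ (fun x => opN x (φ x)) '' ex d)
    (small_image _ _) hH (by
      rintro g hg _ ⟨x, hx, rfl⟩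
      refine ⟨sm (F.le H hH hg) x, ?_, by simp only [sm_opN, hφ g hg]⟩
      have := (mem_sm (F.le H hH hg) x d).mpr hx
      rwa [sm_eq _ (hd g hg)] at this)
  have happ : ∀ x y, F.str.App f x y ↔ x ∈ ex d ∧ y = φ x := by
    intro x y
    rw [app_iff, hf.2]
    constructor
    · rintro ⟨x', hx', e⟩
      obtain ⟨rfl, rfl⟩ := opN_inj e
      exact ⟨hx', rfl⟩
    · rintro ⟨hx, rfl⟩
      exact ⟨x, hx, rfl⟩
  refine ⟨f, ⟨hf.1, fun p hp => ?_, fun x hx => ?_⟩, happ⟩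
  · obtain ⟨x, hx, rfl⟩ := (hf.2 p).mp hp
    exact ⟨x, φ x, hx, (isPair_iff _ _ _).mpr rfl⟩
  · exact ⟨φ x, (happ _ _).mpr ⟨hx, rfl⟩, fun y hy => ((happ _ _).mp hy).2⟩

theorem seq_of_sfi {X : F.N} (h : F.str.SFI X) :
    ∃ H, ∃ hH : H ∈ F.B, ∃ W : ℕ → F.N, (∀ g ∈ H, g • X.1 = X.1) ∧ (∀ i, ex (W i) ⊆ ex X) ∧
      (∀ i, (ex (W i)).Infinite) ∧ (∀ i j, i ≠ j → (ex (W i) ∩ ex (W j)).Finite) ∧
      ∀ i g (hg : g ∈ H), (ex (sm (F.le H hH hg) (W i)) \ ex (W i)).Finite := by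
  obtain ⟨f, hf, hgood, h3, -⟩ := h
  obtain ⟨H, hH, hfix⟩ := exists_fix_finiteN (F := F) (S := {f, X}) (Set.toFinite _)
  have hV : ∀ i, ∃ V, F.str.App f (F.nN i) V := fun i =>
    (hf.2.2 _ ((isNat_iff _).mpr ⟨i, rfl⟩)).exists
  choose V hV using hV
  have hG := fun i => hgood _ _ (hV i)
  choose W hW using fun i => (hG i).2.2.1
  have hdiff : ∀ i U U', F.str.mem U (V i) → F.str.mem U' (V i) → (ex U \ ex U').Finite :=
    fun i U U' hU hU' => (finC_iff _).mp ((hG i).2.2.2.2.2.2.2 U U' hU hU')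
  refine ⟨H, hH, W, fun g hg => hfix g hg X (by simp), fun i => ((hG i).2.1 _ (hW i)).2,
    fun i => ?_, fun i j hij => ?_, fun i g hg => ?_⟩
  · have := (hG i).2.2.2.2.2.2.1 _ (hW i)
    rwa [isFin_iff] at this
  · obtain ⟨U, U', hU, hU', h4⟩ := h3 _ _ _ _ (fun e => hij (F.nN_injective e)) (hV i) (hV j)
    rw [finC_iff] at h4
    refine ((h4.union (hdiff i _ _ (hW i) hU)).union (hdiff j _ _ (hW j) hU')).subset ?_
    rintro z ⟨h1, h2⟩
    by_cases h5 : z ∈ ex U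
    · by_cases h6 : z ∈ ex U'
      · exact Or.inl (Or.inl ⟨h5, h6⟩)
      · exact Or.inr ⟨h2, h6⟩
    · exact Or.inl (Or.inr ⟨h1, h5⟩)
  · refine hdiff i _ _ ?_ (hW i)
    have hG' := F.le H hH hg
    have h4 := app_sm hG' (hV i)
    rw [sm_eq hG' (hfix g hg f (by simp)), sm_nN] at h4
    rw [IsFun.unique hf (hV i) h4]
    exact (mem_sm hG' _ _).mpr (hW i)

theorem exists_om : ∃ w : F.N, F.str.IsSetOf w F.str.IsNat ∧ ∀ g ∈ F.G, g • w.1 = w.1 := by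
  obtain ⟨w, -, hw⟩ := F.exists_omega
  refine ⟨w, IsSetOf.congr hw fun z => (isNat_iff z).symm, fun g hg => ?_⟩
  refine smul_eq_of_forall (H := F.G) hw.1 (fun g _ y hy => ?_) hg
  obtain ⟨n, e⟩ := (hw.2 ⟨y, w.2.of_mem hy⟩).mp hy
  have e' : y = num n := congrArg Subtype.val e
  have : g • y = y := by rw [e', smul_num]
  rwa [this]

theorem remainder_omega {X : F.N} (h : F.str.SFI X) :
    IsRemainder F.str X (PtW F.str) (OpW F.str) := by
  classical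
  obtain ⟨H, hH, W, hX, hsub, hinf, hdisj, hinv⟩ := seq_of_sfi h
  obtain ⟨w, hw, hwfix⟩ := exists_om (F := F)
  let kk : Option ℕ → F.N := fun o => o.elim w F.nN
  have hwn : ∀ n, w ≠ F.nN n := fun n e => by
    have := (hw.2 (F.nN n)).mpr ((isNat_iff _).mpr ⟨n, rfl⟩)
    rw [e] at this
    exact not_mem_self _ this
  have kinj : Function.Injective kk := by
    rintro (_ | a) (_ | b) e
    · rfl
    · exact (hwn b e).elim
    · exact (hwn a e.symm).elim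
    · rw [F.nN_injective e]
  have kfix : ∀ g (hg : g ∈ F.G) o, sm hg (kk o) = kk o := by
    rintro g hg (_ | a)
    · exact sm_eq hg (hwfix g hg)
    · exact sm_nN hg a
  have kP : ∀ k, PtW F.str k ↔ ∃ o, k = kk o := by
    intro k
    constructor
    · rintro (h | h)
      · obtain ⟨n, rfl⟩ := (isNat_iff _).mp h
        exact ⟨some n, rfl⟩
      · exact ⟨none, IsSetOf.unique h hw⟩
    · rintro ⟨_ | a, rfl⟩
      · exact Or.inr hw
      · exact Or.inl ((isNat_iff _).mpr ⟨a, rfl⟩)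
  let em : F.N → F.N := fun x => opN (F.nN 0) x
  let pt : Option ℕ → F.N := fun o => opN (F.nN 1) (kk o)
  have einj : Function.Injective em := fun x y e => (opN_inj e).2
  have pinj : Function.Injective pt := fun x y e => kinj (opN_inj e).2
  have ep : ∀ x o, em x ≠ pt o := fun x o e => by simpa using F.nN_injective (opN_inj e).1
  have esm : ∀ g (hg : g ∈ F.G) x, em (sm hg x) = sm hg (em x) := fun g hg x => by
    simp only [em, sm_opN, sm_nN]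
  have psm : ∀ g (hg : g ∈ F.G) o, sm hg (pt o) = pt o := fun g hg o => by
    simp only [pt, sm_opN, sm_nN, kfix]
  have mkU : ∀ (d : F.N) (I : Set (Option ℕ)), ∃ U : F.N, ¬ F.str.atm U ∧
      ex U = em '' ex d ∪ pt '' I := by
    intro d I
    obtain ⟨K, hK, hd⟩ := d.2.sym
    have := small_ex d
    obtain ⟨U, hU⟩ := exists_setOf (F := F) (fun z => z ∈ em '' ex d ∪ pt '' I)
      (small_union _ _) hK (by
        rintro g hg _ (⟨x, hx, rfl⟩ | ⟨o, ho, rfl⟩)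
        · refine Or.inl ⟨_, ?_, esm g _ x⟩
          have := (mem_sm (F.le K hK hg) x d).mpr hx
          rwa [sm_eq _ (hd g hg)] at this
        · exact Or.inr ⟨o, ho, (psm g _ o).symm⟩)
    exact ⟨U, hU.1, Set.ext hU.2⟩
  have mE : ∀ (Z : Set F.N) (I : Set (Option ℕ)) x, em x ∈ em '' Z ∪ pt '' I ↔ x ∈ Z := by
    intro Z I x
    rw [Set.mem_union, einj.mem_set_image]
    exact ⟨fun h => h.elim id fun ⟨o, _, e⟩ => (ep x o e.symm).elim, Or.inl⟩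
  have mP : ∀ (Z : Set F.N) (I : Set (Option ℕ)) o, pt o ∈ em '' Z ∪ pt '' I ↔ o ∈ I := by
    intro Z I o
    rw [Set.mem_union, pinj.mem_set_image]
    exact ⟨fun h => h.elim (fun ⟨x, _, e⟩ => (ep x o e).elim) id, Or.inr⟩
  obtain ⟨Y, hY0, hY⟩ := mkU X Set.univ
  have hYfix : ∀ g (hg : g ∈ H), sm (F.le H hH hg) Y = Y := by
    intro g hg
    refine sm_eq _ (fix_of_inv (P := fun z => z ∈ ex Y) ⟨hY0, fun _ => Iff.rfl⟩ hH ?_ hg)
    intro g hg z hz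
    rw [hY] at hz ⊢
    rcases hz with ⟨x, hx, rfl⟩ | ⟨o, ho, rfl⟩
    · refine Or.inl ⟨_, ?_, esm g _ x⟩
      have := (mem_sm (F.le H hH hg) x X).mpr hx
      rwa [sm_eq _ (hX g hg)] at this
    · exact Or.inr ⟨o, ho, (psm g _ o).symm⟩
  let Op : F.N → Prop := fun U => (¬ F.str.atm U ∧ ex U ⊆ ex Y) ∧
    (∀ i, pt (some i) ∈ ex U → {x | x ∈ ex (W i) ∧ em x ∉ ex U}.Finite) ∧
    (pt none ∈ ex U → ∃ n, (∀ i, n ≤ i → pt (some i) ∈ ex U) ∧
      {x | x ∈ ex X ∧ em x ∉ ex U ∧ ∀ i < n, x ∉ ex (W i)}.Finite)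
  have hOp : ∀ g (hg : g ∈ H) U, Op U → Op (sm (F.le H hH hg) U) := by
    rintro g hg U ⟨⟨h1, h2⟩, h3, h4⟩
    have hG := F.le H hH hg
    refine ⟨⟨fun h => h1 ((isAtom_smul g).mp h), ?_⟩, fun i hi => ?_, fun hi => ?_⟩
    · rw [← hYfix g hg, ex_sm, ex_sm]
      exact Set.image_mono h2
    · rw [← psm g hG, mem_sm] at hi
      refine (((h3 i hi).union (hinv i g⁻¹ (H.inv_mem hg))).image (sm hG)).subset ?_
      rintro z ⟨h5, h6⟩
      obtain ⟨z, rfl⟩ := sm_surjective hG z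
      rw [esm, mem_sm] at h6
      refine ⟨z, ?_, rfl⟩
      by_cases h7 : z ∈ ex (W i)
      · exact Or.inl ⟨h7, h6⟩
      · refine Or.inr ⟨(mem_ex_sm _ _ _).mpr ?_, h7⟩
        have e : sm (F.G.inv_mem (F.le H hH (H.inv_mem hg))) z = sm hG z :=
          Subtype.ext (by simp [sm])
        rwa [e]
    · rw [← psm g hG, mem_sm] at hi
      obtain ⟨n, h5, h6⟩ := h4 hi
      refine ⟨n, fun i hi => by rw [← psm g hG, mem_sm]; exact h5 i hi, ?_⟩
      refine ((h6.image (sm hG)).union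
        ((Set.finite_lt_nat n).biUnion fun i _ => hinv i g hg)).subset ?_
      rintro z ⟨h7, h8, h9⟩
      obtain ⟨z, rfl⟩ := sm_surjective hG z
      rw [esm, mem_sm] at h8
      rw [← sm_eq hG (hX g hg), mem_sm] at h7
      by_cases h10 : ∀ i < n, z ∉ ex (W i)
      · exact Or.inl ⟨z, ⟨h7, h8, h10⟩, rfl⟩
      · push Not at h10
        obtain ⟨i, hi, h11⟩ := h10
        exact Or.inr (Set.mem_biUnion hi ⟨(mem_sm hG _ _).mpr h11, h9 i hi⟩)
  obtain ⟨T, hT⟩ := exists_setOf Op (small_of_subset (small_pow Y.1) fun U hU =>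
      ⟨hU.1.1, fun w hw => hU.1.2 (show (⟨w, U.2.of_mem hw⟩ : F.N) ∈ ex U from hw)⟩) hH hOp
  obtain ⟨e, he, heapp⟩ := exists_fun X em hH hX fun g hg x => esm g _ x
  obtain ⟨hh, hhf, hhapp⟩ := exists_graph pt kk pinj hH fun g hg o =>
    ⟨congrArg Subtype.val (psm g (F.le H hH hg) o), congrArg Subtype.val (kfix g (F.le H hH hg) o)⟩
  have opU : ∀ (d : F.N) (I : Set (Option ℕ)), ex d ⊆ ex X →
      (∀ i, some i ∈ I → (ex (W i) \ ex d).Finite) →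
      (none ∈ I → ∃ n, (∀ i, n ≤ i → some i ∈ I) ∧
        {x | x ∈ ex X ∧ x ∉ ex d ∧ ∀ i < n, x ∉ ex (W i)}.Finite) →
      ∃ U, F.str.mem U T ∧ (∀ x, em x ∈ ex U ↔ x ∈ ex d) ∧ (∀ o, pt o ∈ ex U ↔ o ∈ I) ∧
        ex U = em '' ex d ∪ pt '' I := by
    intro d I h1 h2 h3
    obtain ⟨U, hU0, hU⟩ := mkU d I
    have a1 : ∀ x, em x ∈ ex U ↔ x ∈ ex d := fun x => by rw [hU, mE]
    have a2 : ∀ o, pt o ∈ ex U ↔ o ∈ I := fun o => by rw [hU, mP]
    refine ⟨U, (hT.2 U).mpr ⟨⟨hU0, ?_⟩, ?_, ?_⟩, a1, a2, hU⟩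
    · rw [hU, hY]
      exact Set.union_subset_union (Set.image_mono h1) (Set.image_mono (Set.subset_univ _))
    · simp only [a1, a2]; exact h2
    · simp only [a1, a2]; exact h3
  have sepr : ∀ (d : F.N) (I : Set ℕ), I.Finite → ex d ⊆ ex X →
      (∀ i ∈ I, (ex (W i) \ ex d).Finite) → (ex d \ ⋃ i ∈ I, ex (W i)).Finite →
      ∃ U U', F.str.mem U T ∧ F.str.mem U' T ∧ (∀ x, em x ∈ ex U ↔ x ∈ ex d) ∧
        (∀ o, pt o ∈ ex U ↔ o ∈ some '' I) ∧ ∀ z ∈ ex Y, z ∈ ex U' ↔ z ∉ ex U := by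
    intro d I hI h1 h2 h3
    obtain ⟨U, hU, a1, a2, -⟩ := opU d (some '' I) h1 (fun i hi => h2 i (by simpa using hi))
      (by simp)
    obtain ⟨d', hd'⟩ := exists_diff X d
    obtain ⟨n, hn⟩ := hI.bddAbove
    obtain ⟨U', hU', b1, b2, -⟩ := opU d' (some '' I)ᶜ (fun z hz => ((hd'.2 z).mp hz).1)
      (fun j hj => by
        refine (h3.union (hI.biUnion fun i hi => hdisj i j ?_)).subset ?_
        · rintro rfl; exact hj ⟨i, hi, rfl⟩
        · rintro z ⟨h4, h5⟩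
          have h6 : z ∈ ex d := by
            by_contra h6
            exact h5 ((hd'.2 z).mpr ⟨hsub j h4, h6⟩)
          by_cases h7 : z ∈ ⋃ i ∈ I, ex (W i)
          · obtain ⟨i, hi, h8⟩ := Set.mem_iUnion₂.mp h7
            exact Or.inr (Set.mem_biUnion hi ⟨h8, h4⟩)
          · exact Or.inl ⟨h6, h7⟩)
      (fun _ => ⟨n + 1, fun i hi h => by
          have := hn (show i ∈ I by simpa using h); omega, by
        refine h3.subset ?_
        rintro z ⟨h4, h5, h6⟩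
        refine ⟨by by_contra h7; exact h5 ((hd'.2 z).mpr ⟨h4, h7⟩), fun h7 => ?_⟩
        obtain ⟨i, hi, h8⟩ := Set.mem_iUnion₂.mp h7
        exact h6 i (Nat.lt_succ_of_le (hn hi)) h8⟩)
    refine ⟨U, U', hU, hU', a1, a2, fun z hz => ?_⟩
    rw [hY] at hz
    rcases hz with ⟨x, hx, rfl⟩ | ⟨o, -, rfl⟩
    · rw [a1, b1]
      exact (hd'.2 x).trans (and_iff_right hx)
    · rw [a2, b2]; rfl
  have sing : ∀ x ∈ ex X, ∃ U U', F.str.mem U T ∧ F.str.mem U' T ∧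
      (∀ z ∈ ex Y, z ∈ ex U ↔ z = em x) ∧ ∀ z ∈ ex Y, z ∈ ex U' ↔ z ∉ ex U := by
    intro x hx
    have hd : ex (upN x x) = {x} := Set.ext fun z => ((isSetOf_upN x x).2 z).trans (by simp)
    obtain ⟨U, U', h1, h2, h3, h4, h5⟩ := sepr (upN x x) ∅ Set.finite_empty (by simpa [hd] using hx)
      (by simp) (by simp [hd])
    refine ⟨U, U', h1, h2, fun z hz => ?_, h5⟩
    rw [hY] at hz
    rcases hz with ⟨y, -, rfl⟩ | ⟨o, -, rfl⟩
    · rw [h3, hd, einj.eq_iff]; rfl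
    · rw [h4]; simpa using (ep x o).symm
  have blk : ∀ i, ∃ U U', F.str.mem U T ∧ F.str.mem U' T ∧
      (∀ o, pt o ∈ ex U ↔ o = some i) ∧ ∀ z ∈ ex Y, z ∈ ex U' ↔ z ∉ ex U := by
    intro i
    obtain ⟨U, U', h1, h2, -, h4, h5⟩ := sepr (W i) {i} (Set.finite_singleton i) (hsub i)
      (by simp) (by simp)
    exact ⟨U, U', h1, h2, fun o => by rw [h4]; simp, h5⟩
  have hTY : ∀ U, F.str.mem U T → ex U ⊆ ex Y := fun U hU => ((hT.2 U).mp hU).1.2
  have hEY : ∀ x ∈ ex X, em x ∈ ex Y := fun x hx => by rw [hY, mE]; exact hx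
  have hPY : ∀ o, pt o ∈ ex Y := fun o => by rw [hY, mP]; trivial
  refine ⟨Y, T, e, hh, ⟨hY0, ⟨hT.1, fun U hU => ((hT.2 U).mp hU).1⟩, ?_, ?_, ?_⟩, ?_, ?_,
    ⟨he, ?_, ?_⟩, ?_, ?_, ⟨?_, ?_, ?_⟩, ?_, ?_⟩
  · refine (hT.2 Y).mpr ⟨⟨hY0, subset_rfl⟩, fun i _ => Set.finite_empty.subset ?_,
      fun _ => ⟨0, fun i _ => hPY _, Set.finite_empty.subset ?_⟩⟩
    · exact fun x hx => hx.2 (hEY x (hsub i hx.1))
    · exact fun x hx => hx.2.1 (hEY x hx.1)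
  · intro U U' I hU hU' hI
    rw [hT.2] at hU hU' ⊢
    have e : ex I = ex U ∩ ex U' := Set.ext hI.2
    refine ⟨⟨hI.1, e ▸ Set.inter_subset_left.trans hU.1.2⟩, fun i hi => ?_, fun hi => ?_⟩ <;>
      rw [e] at hi ⊢
    · refine ((hU.2.1 i hi.1).union (hU'.2.1 i hi.2)).subset fun z hz => ?_
      by_cases h : em z ∈ ex U
      · exact Or.inr ⟨hz.1, fun h' => hz.2 ⟨h, h'⟩⟩
      · exact Or.inl ⟨hz.1, h⟩
    · obtain ⟨n, a1, a2⟩ := hU.2.2 hi.1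
      obtain ⟨n', b1, b2⟩ := hU'.2.2 hi.2
      refine ⟨max n n', fun i hi => ⟨a1 i (by omega), b1 i (by omega)⟩,
        (a2.union b2).subset fun z hz => ?_⟩
      by_cases h : em z ∈ ex U
      · exact Or.inr ⟨hz.1, fun h' => hz.2.1 ⟨h, h'⟩, fun i hi => hz.2.2 i (by omega)⟩
      · exact Or.inl ⟨hz.1, h, fun i hi => hz.2.2 i (by omega)⟩
  · intro C I hC hI
    rw [hT.2]
    have a1 : ∀ U, F.str.mem U C → ex U ⊆ ex I := fun U hU z hz => (hI.2 z).mpr ⟨U, hU, hz⟩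
    refine ⟨⟨hI.1, fun z hz => ?_⟩, fun i hi => ?_, fun hi => ?_⟩
    · obtain ⟨U, hU, hz⟩ := (hI.2 z).mp hz
      exact hTY U (hC.2 U hU) hz
    · obtain ⟨U, hU, hz⟩ := (hI.2 _).mp hi
      exact (((hT.2 U).mp (hC.2 U hU)).2.1 i hz).subset fun z h => ⟨h.1, fun h' => h.2 (a1 U hU h')⟩
    · obtain ⟨U, hU, hz⟩ := (hI.2 _).mp hi
      obtain ⟨n, b1, b2⟩ := ((hT.2 U).mp (hC.2 U hU)).2.2 hz
      exact ⟨n, fun i hi => a1 U hU (b1 i hi),
        b2.subset fun z h => ⟨h.1, fun h' => h.2.1 (a1 U hU h'), h.2.2⟩⟩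
  · have key : ∀ x y U U', x ∈ ex Y → y ∈ ex Y → F.str.mem U T → F.str.mem U' T →
        (∀ z ∈ ex Y, z ∈ ex U' ↔ z ∉ ex U) → x ∈ ex U → y ∉ ex U →
        (∃ U W, F.str.mem U T ∧ F.str.mem W T ∧ F.str.mem x U ∧ F.str.mem y W ∧
          ∀ z, F.str.mem z U → ¬ F.str.mem z W) ∧
        ∃ U W, F.str.mem U T ∧ F.str.mem W T ∧ F.str.mem y U ∧ F.str.mem x W ∧
          ∀ z, F.str.mem z U → ¬ F.str.mem z W := by
      intro x y U U' _ hy hU hU' h hx hy'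
      exact ⟨⟨U, U', hU, hU', hx, (h y hy).mpr hy', fun z hz hz' => (h z (hTY U hU hz)).mp hz' hz⟩,
        U', U, hU', hU, (h y hy).mpr hy', hx, fun z hz hz' => (h z (hTY U hU hz')).mp hz hz'⟩
    intro x y hx hy hxy
    have hx' : x ∈ em '' ex X ∪ pt '' Set.univ := hY ▸ hx
    have hy' : y ∈ em '' ex X ∪ pt '' Set.univ := hY ▸ hy
    rcases hx' with ⟨a, ha, rfl⟩ | ⟨o, -, rfl⟩
    · obtain ⟨U, U', h1, h2, h3, h4⟩ := sing a ha
      exact (key _ _ U U' hx hy h1 h2 h4 ((h3 _ hx).mpr rfl)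
        fun h => hxy ((h3 _ hy).mp h).symm).1
    rcases hy' with ⟨a, ha, rfl⟩ | ⟨o', -, rfl⟩
    · obtain ⟨U, U', h1, h2, h3, h4⟩ := sing a ha
      exact (key _ _ U U' hy hx h1 h2 h4 ((h3 _ hy).mpr rfl) fun h => hxy ((h3 _ hx).mp h)).2
    rcases o with _ | i
    · rcases o' with _ | j
      · exact (hxy rfl).elim
      · obtain ⟨U, U', h1, h2, h3, h4⟩ := blk j
        exact (key _ _ U U' hy hx h1 h2 h4 ((h3 _).mpr rfl) (by rw [h3]; simp)).2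
    · obtain ⟨U, U', h1, h2, h3, h4⟩ := blk i
      exact (key _ _ U U' hx hy h1 h2 h4 ((h3 _).mpr rfl)
        fun h => hxy (by rw [(h3 _).mp h])).1
  · intro C hC hcov
    choose! c hc1 hc2 using hcov
    have hO := fun y hy => (hT.2 _).mp (hC.2 _ (hc1 y hy))
    obtain ⟨n, a1, a2⟩ := (hO _ (hPY none)).2.2 (hc2 _ (hPY none))
    let Z : Set F.N := insert (pt none) ((fun i => pt (some i)) '' {i | i < n} ∪ em ''
      ({x | x ∈ ex X ∧ em x ∉ ex (c (pt none)) ∧ ∀ i < n, x ∉ ex (W i)} ∪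
        ⋃ i ∈ {i | i < n}, {x | x ∈ ex (W i) ∧ em x ∉ ex (c (pt (some i)))}))
    have hZ : Z.Finite := (((Set.finite_lt_nat n).image _).union ((a2.union
      ((Set.finite_lt_nat n).biUnion fun i _ => (hO _ (hPY _)).2.1 i (hc2 _ (hPY _)))).image _)).insert _
    have hZY : Z ⊆ ex Y := by
      rintro _ (rfl | ⟨i, -, rfl⟩ | ⟨x, hx | hx, rfl⟩)
      · exact hPY _
      · exact hPY _
      · exact hEY x hx.1
      · obtain ⟨i, -, hx⟩ := Set.mem_iUnion₂.mp hx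
        exact hEY x (hsub i hx.1)
    obtain ⟨D, hD⟩ := exists_setOf_finite (P := fun U => U ∈ c '' Z) (hZ.image c)
    refine ⟨D, ⟨hD.1, fun U hU => ?_⟩, ?_, fun y hy => ?_⟩
    · obtain ⟨z, hz, rfl⟩ := (hD.2 U).mp hU
      exact hc1 z (hZY hz)
    · rw [isFin_iff]
      exact (hZ.image c).subset fun U hU => (hD.2 U).mp hU
    · suffices ∃ z ∈ Z, y ∈ ex (c z) by
        obtain ⟨z, hz, h⟩ := this
        exact ⟨c z, (hD.2 _).mpr ⟨z, hz, rfl⟩, h⟩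
      by_cases hyZ : y ∈ Z
      · exact ⟨y, hyZ, hc2 y hy⟩
      have hy' : y ∈ em '' ex X ∪ pt '' Set.univ := hY ▸ hy
      rcases hy' with ⟨x, hx, rfl⟩ | ⟨_ | i, -, rfl⟩
      · by_cases h1 : em x ∈ ex (c (pt none))
        · exact ⟨_, Set.mem_insert _ _, h1⟩
        · by_cases h2 : ∀ i < n, x ∉ ex (W i)
          · exact (hyZ (Or.inr (Or.inr ⟨x, Or.inl ⟨hx, h1, h2⟩, rfl⟩))).elim
          · push Not at h2
            obtain ⟨i, hi, h2⟩ := h2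
            refine ⟨pt (some i), Or.inr (Or.inl ⟨i, hi, rfl⟩), ?_⟩
            by_contra h3
            exact hyZ (Or.inr (Or.inr ⟨x, Or.inr (Set.mem_biUnion hi ⟨h2, h3⟩), rfl⟩))
      · exact (hyZ (Set.mem_insert _ _)).elim
      · by_cases hi : i < n
        · exact (hyZ (Or.inr (Or.inl ⟨i, hi, rfl⟩))).elim
        · exact ⟨_, Set.mem_insert _ _, a1 i (by omega)⟩
  · intro x y h
    obtain ⟨hx, rfl⟩ := (heapp _ _).mp h
    exact hEY x hx
  · intro x x' y h h'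
    exact einj (((heapp _ _).mp h).2.symm.trans ((heapp _ _).mp h').2)
  · intro x y h
    obtain ⟨hx, rfl⟩ := (heapp _ _).mp h
    obtain ⟨U, -, h1, -, h3, -⟩ := sing x hx
    refine ⟨U, h1, fun x' y' h' => ?_⟩
    obtain ⟨hx', rfl⟩ := (heapp _ _).mp h'
    exact (h3 _ (hEY x' hx')).trans einj.eq_iff
  · intro U y hU hy
    have hO := (hT.2 U).mp hU
    have a1 : ∀ i, pt (some i) ∈ ex U → ∃ x y', F.str.App e x y' ∧ F.str.mem y' U := by
      intro i hi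
      obtain ⟨x, hx, hx'⟩ := (hinf i).exists_notMem_finite (hO.2.1 i hi)
      refine ⟨x, em x, (heapp _ _).mpr ⟨hsub i hx, rfl⟩, ?_⟩
      by_contra h
      exact hx' ⟨hx, h⟩
    have hy' : y ∈ em '' ex X ∪ pt '' Set.univ := hY ▸ hO.1.2 hy
    rcases hy' with ⟨x, hx, rfl⟩ | ⟨_ | i, -, rfl⟩
    · exact ⟨x, _, (heapp _ _).mpr ⟨hx, rfl⟩, hy⟩
    · obtain ⟨n, h1, -⟩ := hO.2.2 hy
      exact a1 n (h1 n le_rfl)
    · exact a1 i hy
  · have : (fun y => F.str.mem y Y ∧ ¬ ∃ x, F.str.App e x y) = fun y => ∃ o, y = pt o := by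
      funext y
      apply propext
      constructor
      · rintro ⟨hy, h⟩
        have hy' : y ∈ em '' ex X ∪ pt '' Set.univ := hY ▸ hy
        rcases hy' with ⟨x, hx, rfl⟩ | ⟨o, -, rfl⟩
        · exact (h ⟨x, (heapp _ _).mpr ⟨hx, rfl⟩⟩).elim
        · exact ⟨o, rfl⟩
      · rintro ⟨o, rfl⟩
        exact ⟨hPY o, fun ⟨x, hx⟩ => ep x o ((heapp _ _).mp hx).2.symm⟩
    rw [this]
    exact hhf
  · intro y k h
    obtain ⟨o, -, rfl⟩ := (hhapp _ _).mp h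
    exact (kP _).mpr ⟨o, rfl⟩
  · intro y y' k h h'
    obtain ⟨o, rfl, rfl⟩ := (hhapp _ _).mp h
    obtain ⟨o', rfl, e⟩ := (hhapp _ _).mp h'
    rw [kinj e]
  · intro k hk
    obtain ⟨o, rfl⟩ := (kP _).mp hk
    exact ⟨pt o, (hhapp _ _).mpr ⟨o, rfl, rfl⟩⟩
  · intro V _
    constructor
    · intro hV
      obtain ⟨U, hU, -, a2, -⟩ := opU X {o | kk o ∈ ex V} subset_rfl
        (fun i _ => by rw [Set.sdiff_eq_empty.mpr (hsub i)]; exact Set.finite_empty) (fun h => by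
          obtain ⟨n, hn, h1⟩ := hV w h hw
          obtain ⟨n, rfl⟩ := (isNat_iff _).mp hn
          exact ⟨n + 1, fun i hi => h1 _ ((isNat_iff _).mpr ⟨i, rfl⟩)
            ((mem_nN _ _).mpr ⟨n, hi, rfl⟩), Set.finite_empty.subset fun x hx => hx.2.1 hx.1⟩)
      refine ⟨U, hU, fun y k h => ?_⟩
      obtain ⟨o, rfl, rfl⟩ := (hhapp _ _).mp h
      exact a2 o
    · rintro ⟨U, hU, h⟩ w' hw' hw''
      rw [IsSetOf.unique hw'' hw] at hw'
      have a1 : ∀ o, pt o ∈ ex U ↔ kk o ∈ ex V := fun o => h _ _ ((hhapp _ _).mpr ⟨o, rfl, rfl⟩)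
      obtain ⟨n, h1, -⟩ := ((hT.2 U).mp hU).2.2 ((a1 none).mpr hw')
      refine ⟨F.nN n, (isNat_iff _).mpr ⟨n, rfl⟩, fun m hm hnm => ?_⟩
      obtain ⟨m, rfl⟩ := (isNat_iff _).mp hm
      obtain ⟨j, hj, e⟩ := (mem_nN _ _).mp hnm
      rw [← F.nN_injective e] at hj
      exact (a1 (some m)).mp (h1 m hj.le)

end Pool.Agent.P.MP_ec7d96_lc
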