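import Pool.Agent.P.MP_ec7d96_lc.Main

namespace Pool.Agent.P.MP_ec7d96_lc.VariantRemainders

open Pool.Agent.Lib.PermModel Pool.Agent.P.MP_ec7d96_lc

theorem result : ∃ (M : Type 1) (S : Str M), S.IsZFA ∧ ∃ X, ¬ S.atm X ∧
    IsRemainder S X (PtW S) (OpW S) ∧ ¬ IsRemainder S X (PtC S) (OpC S) :=
  main

end Pool.Agent.P.MP_ec7d96_lc.VariantRemainders
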