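import Pool.Agent.P.MP_ec7d96_lc.Defs
import Pool.Agent.Lib.SymExt.Std

/-! In a standard model of ZF the remainder `2 ^ omega` gives a definable tree of subsets. -/

namespace Pool.Agent.P.MP_ec7d96_lc

open Pool.Agent.Lib.PermModel Pool.Agent.Lib.SymExt

namespace ZCube

section defs
variable {M : Type 1} (S : Str M)

/-- `x` is the numeral `n`. -/
def Nm : ℕ → M → Prop
  | 0, x => ∀ z, ¬ S.mem z x
  | n + 1, x => ∃ y, Nm n y ∧ ∀ z, S.mem z x ↔ S.mem z y ∨ z = y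

/-- The value of `f` at `i` is not empty. -/
def One (f i : M) : Prop := ∃ b z, S.App f i b ∧ S.mem z b

/-- `f` agrees with `k` below `n`. -/
def Cyl (k : ℕ → Bool) : ℕ → M → Prop
  | 0, _ => True
  | n + 1, f => Cyl k n f ∧ ∃ i, Nm S n i ∧ (One S f i ↔ k n = true)

/-- `a` and `b` have no common member. -/
def Dj (a b : M) : Prop := ∀ z, S.mem z a → ¬ S.mem z b

/-- Every member of `a` is a member of `b`. -/
def Sb (a b : M) : Prop := ∀ z, S.mem z a → S.mem z b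

/-- `W` is the trace on the discrete part of an open set that contains the points over `Z` and is
disjoint from an open set that contains the points over the complement of `Z`. -/
def Gd (Z : M → Prop) (T e h W : M) : Prop :=
  ∃ U U', S.mem U T ∧ S.mem U' T ∧ (∀ y f, S.App h y f → Z f → S.mem y U) ∧
    (∀ y f, S.App h y f → ¬ Z f → S.mem y U') ∧ Dj S U U' ∧
    ∀ x, S.mem x W ↔ ∃ y, S.App e x y ∧ S.mem y U

end defs

instance ud_nm (n j : ℕ) : UD fun _ S v => Nm S n (v j) := by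
  induction n generalizing j with
  | zero => exact (inferInstance : UD fun _ S v => ∀ z, ¬ S.mem z (v j))
  | succ n ih =>
    exact (inferInstance :
      UD fun _ S v => ∃ y, Nm S n y ∧ ∀ z, S.mem z (v j) ↔ S.mem z y ∨ z = y)

instance ud_one (i j : ℕ) : UD fun _ S v => One S (v i) (v j) := by
  unfold One; infer_instance

instance ud_dj (i j : ℕ) : UD fun _ S v => Dj S (v i) (v j) := by
  unfold Dj; infer_instance

instance ud_sb (i j : ℕ) : UD fun _ S v => Sb S (v i) (v j) := by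
  unfold Sb; infer_instance

theorem ud_const (p : Prop) : UD fun _ _ _ => p := by
  by_cases hp : p
  · exact ud_true.congr fun _ _ _ => by simp [hp]
  · exact ud_false.congr fun _ _ _ => by simp [hp]

instance ud_cyl (k : ℕ → Bool) (n j : ℕ) : UD fun _ S v => Cyl S k n (v j) := by
  induction n with
  | zero => exact ud_true
  | succ n ih =>
    have := ud_const (k n = true)
    exact (inferInstance :
      UD fun _ S v => Cyl S k n (v j) ∧ ∃ i, Nm S n i ∧ (One S (v j) i ↔ k n = true))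

theorem ud_gd (k : ℕ → Bool) (n : ℕ) :
    UD fun _ S v => Gd S (Cyl S k n) (v 1) (v 2) (v 3) (v 0) := by
  unfold Gd; infer_instance

variable {M : Type 1} {S : Str M} {num : ℕ → M}

section basics

theorem ext' (h : Std S num) {x y : M} (e : ∀ z, S.mem z x ↔ S.mem z y) : x = y :=
  h.zf.ext x y (h.set x) (h.set y) e

theorem setOf_unique (h : Std S num) {a b : M} {P : M → Prop} (ha : S.IsSetOf a P)
    (hb : S.IsSetOf b P) : a = b :=
  ext' h fun z => (ha.2 z).trans (hb.2 z).symm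

theorem exists_single (h : Std S num) (x : M) : ∃ s, S.IsSetOf s fun z => z = x := by
  obtain ⟨s, hs⟩ := h.zf.pairing x x
  exact ⟨s, hs.1, fun z => (hs.2 z).trans or_self_iff⟩

theorem pair_inj (h : Std S num) {p x y x' y' : M} (a : S.IsPair p x y) (b : S.IsPair p x' y') :
    x = x' ∧ y = y' := by
  obtain ⟨s, hs⟩ := exists_single h x
  have e1 : x = x' := by
    rcases (b.2 s).mp ((a.2 s).mpr (Or.inl hs)) with c | c
    · exact (c.2 x).mp ((hs.2 x).mpr rfl)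
    · exact ((hs.2 x').mp ((c.2 x').mpr (Or.inl rfl))).symm
  subst e1
  have k : ∀ {y y' : M}, S.IsPair p x y → S.IsPair p x y' → y = x ∨ y = y' := by
    intro y y' a b
    obtain ⟨d, hd⟩ := h.zf.pairing x y
    rcases (b.2 d).mp ((a.2 d).mpr (Or.inr hd)) with c | c
    · exact Or.inl ((c.2 y).mp ((hd.2 y).mpr (Or.inr rfl)))
    · exact (c.2 y).mp ((hd.2 y).mpr (Or.inr rfl))
  refine ⟨rfl, ?_⟩
  rcases k a b with e | e
  · rcases k b a with e' | e'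
    exacts [e.trans e'.symm, e'.symm]
  · exact e

theorem exists_pair (h : Std S num) (x y : M) : ∃ p, S.IsPair p x y := by
  obtain ⟨s, hs⟩ := exists_single h x
  obtain ⟨d, hd⟩ := h.zf.pairing x y
  obtain ⟨p, hp⟩ := h.zf.pairing s d
  refine ⟨p, hp.1, fun u => (hp.2 u).trans (or_congr ?_ ?_)⟩
  · exact ⟨fun e => e ▸ hs, fun c => setOf_unique h c hs⟩
  · exact ⟨fun e => e ▸ hd, fun c => setOf_unique h c hd⟩

theorem fun_dom (h : Std S num) {f x y : M} {P : M → Prop} (hf : S.IsFun f P)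
    (a : S.App f x y) : P x := by
  obtain ⟨p, hp, c⟩ := a
  obtain ⟨x', y', hx, c'⟩ := hf.2.1 p hp
  exact (pair_inj h c c').1 ▸ hx

theorem fun_unique (h : Std S num) {f x y y' : M} {P : M → Prop} (hf : S.IsFun f P)
    (a : S.App f x y) (b : S.App f x y') : y = y' :=
  (hf.2.2 x (fun_dom h hf a)).unique a b

theorem exists_fin (h : Std S num) {D : Set M} (hD : D.Finite) :
    ∃ C, ∀ z, S.mem z C ↔ z ∈ D := by
  induction D, hD using Set.Finite.induction_on with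
  | empty => exact ⟨num 0, fun z => by simp [h.mem_num]⟩
  | @insert a s _ _ ih =>
    obtain ⟨C, hC⟩ := ih
    obtain ⟨t, ht⟩ := exists_single h a
    obtain ⟨p, hp⟩ := h.zf.pairing t C
    obtain ⟨u, hu⟩ := h.zf.union p
    refine ⟨u, fun z => (hu.2 z).trans ?_⟩
    simp only [hp.2, Set.mem_insert_iff, ← hC, ← ht.2 z]
    constructor
    · rintro ⟨y, rfl | rfl, c⟩
      exacts [Or.inl c, Or.inr c]
    · rintro (c | c)
      exacts [⟨_, Or.inl rfl, c⟩, ⟨_, Or.inr rfl, c⟩]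

theorem fin_of_isFin (h : Std S num) {x : M} (hx : S.IsFin x) : (ex S x).Finite := by
  obtain ⟨n, f, hn, hf, -, h2⟩ := hx
  obtain ⟨m, rfl⟩ := (h.isNat n).mp hn
  choose! g hg using fun a (ha : a ∈ ex S x) => (h2 a ha).exists
  refine Set.Finite.of_finite_image (f := g) (((Set.finite_lt_nat m).image num).subset ?_)
    fun a ha b hb e => fun_unique h hf (hg a ha) (e ▸ hg b hb)
  rintro _ ⟨a, ha, rfl⟩
  have c := fun_dom h hf (hg a ha)
  obtain ⟨i, hi, e⟩ := (h.mem_num _ _).mp c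
  exact ⟨i, hi, e.symm⟩

theorem num_inj (h : Std S num) : Function.Injective num := by
  have irr : ∀ i, ¬ S.mem (num i) (num i) := by
    intro i
    induction i using Nat.strong_induction_on with
    | _ i ih =>
      intro hm
      obtain ⟨m, c, e⟩ := (h.mem_num _ _).mp hm
      exact ih m c (e ▸ hm)
  intro i j e
  rcases lt_trichotomy i j with c | c | c
  · exact (irr j ((h.mem_num _ _).mpr ⟨i, c, e.symm⟩)).elim
  · exact c
  · exact (irr i ((h.mem_num _ _).mpr ⟨j, c, e⟩)).elim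

theorem nm_iff (h : Std S num) (n : ℕ) (x : M) : Nm S n x ↔ x = num n := by
  induction n generalizing x with
  | zero =>
    refine ⟨fun a => ext' h fun z => ?_, fun e z => ?_⟩
    · simp [h.mem_num, a z]
    · simp [e, h.mem_num]
  | succ n ih =>
    have e : ∀ z, S.mem z (num (n + 1)) ↔ S.mem z (num n) ∨ z = num n := by
      intro z
      simp only [h.mem_num, Nat.lt_succ_iff_lt_or_eq]
      constructor
      · rintro ⟨m, c | rfl, e⟩
        exacts [Or.inl ⟨m, c, e⟩, Or.inr e]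
      · rintro (⟨m, c, e⟩ | e)
        exacts [⟨m, Or.inl c, e⟩, ⟨n, Or.inr rfl, e⟩]
    refine ⟨fun ⟨y, a, b⟩ => ext' h fun z => ?_, fun a => ⟨num n, (ih _).mpr rfl, a ▸ e⟩⟩
    rw [b, e, (ih y).mp a]

theorem cyl_iff (h : Std S num) (k : ℕ → Bool) (n : ℕ) (f : M) :
    Cyl S k n f ↔ ∀ i < n, (One S f (num i) ↔ k i = true) := by
  induction n with
  | zero => simp [Cyl]
  | succ n ih =>
    simp only [Cyl, ih, nm_iff h, exists_eq_left, Nat.forall_lt_succ_right]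

theorem cyl_congr (h : Std S num) (k : ℕ → Bool) (n : ℕ) {f g : M} (hf : PtC S f) (hg : PtC S g)
    (e : ∀ i b, S.mem i (num n) → S.App f i b → S.App g i b) : Cyl S k n f ↔ Cyl S k n g := by
  rw [cyl_iff h, cyl_iff h]
  refine forall₂_congr fun i hi => iff_congr ?_ Iff.rfl
  obtain ⟨b, hb, -⟩ := hf.1.2.2 _ ((h.isNat _).mpr ⟨i, rfl⟩)
  have hb' := e _ b ((h.mem_num _ _).mpr ⟨i, hi, rfl⟩) hb
  exact ⟨fun ⟨c, z, a1, a2⟩ => ⟨b, z, hb', fun_unique h hf.1 a1 hb ▸ a2⟩,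
    fun ⟨c, z, a1, a2⟩ => ⟨b, z, hb, fun_unique h hg.1 a1 hb' ▸ a2⟩⟩

/-- Every basic set has a point. -/
theorem exists_pt (h : Std S num) (k : ℕ → Bool) (n : ℕ) : ∃ f, PtC S f ∧ Cyl S k n f := by
  classical
  obtain ⟨A, hA⟩ := exists_fin h
    (((Set.finite_lt_nat n).subset (fun i hi => hi.1 : {i | i < n ∧ k i = true} ⊆ _)).image num)
  obtain ⟨I, hI⟩ := h.zf.infinity
  obtain ⟨w, hw⟩ := sepU h.zf (fun _ S z _ => S.IsNat z) (fun _ => I) I
  have hw' : ∀ z, S.mem z w ↔ S.IsNat z := fun z =>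
    (hw.2 z).trans ⟨fun a => a.2, fun a => ⟨a I hI, a⟩⟩
  let val : M → M := fun i => if S.mem i A then num 1 else num 0
  have key : ∀ i p, (∃ b, S.IsPair p i b ∧
      (S.mem i A ∧ b = num 1 ∨ ¬ S.mem i A ∧ b = num 0)) ↔ S.IsPair p i (val i) := by
    intro i p
    by_cases c : S.mem i A <;> simp [val, c]
  obtain ⟨f, hf⟩ := replU h.zf (fun _ S i p v => ∃ b, S.IsPair p i b ∧
      (S.mem i (v 0) ∧ b = v 1 ∨ ¬ S.mem i (v 0) ∧ b = v 2))
    (cons A (cons (num 1) fun _ => num 0)) w fun i _ => by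
      obtain ⟨p, hp⟩ := exists_pair h i (val i)
      exact ⟨p, (key i p).mpr hp, fun q hq => setOf_unique h ((key i q).mp hq) hp⟩
  have hf' : ∀ p, S.mem p f ↔ ∃ i, S.IsNat i ∧ S.IsPair p i (val i) := fun p =>
    (hf.2 p).trans (exists_congr fun i => and_congr (hw' i) (key i p))
  have app : ∀ x y, S.App f x y ↔ S.IsNat x ∧ y = val x := by
    intro x y
    constructor
    · rintro ⟨p, hp, c⟩
      obtain ⟨i, hi, c'⟩ := (hf' p).mp hp
      obtain ⟨rfl, rfl⟩ := pair_inj h c c'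
      exact ⟨hi, rfl⟩
    · rintro ⟨hx, rfl⟩
      obtain ⟨p, hp⟩ := exists_pair h x (val x)
      exact ⟨p, (hf' p).mpr ⟨x, hx, hp⟩, hp⟩
  have z0 : S.IsSetOf (num 0) fun _ => False := ⟨h.set _, fun z => by simp [h.mem_num]⟩
  refine ⟨f, ⟨⟨h.set f, fun p hp => ?_, fun x hx => ⟨val x, (app _ _).mpr ⟨hx, rfl⟩,
    fun y hy => ((app _ _).mp hy).2⟩⟩, fun i b c => ?_⟩, (cyl_iff h k n f).mpr fun i hi => ?_⟩
  · obtain ⟨i, hi, c⟩ := (hf' p).mp hp
    exact ⟨i, _, hi, c⟩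
  · obtain ⟨-, rfl⟩ := (app _ _).mp c
    by_cases c : S.mem i A
    · refine Or.inr ⟨h.set _, fun z => ?_⟩
      simp only [val, if_pos c, h.mem_num, Nat.lt_one_iff, exists_eq_left]
      exact ⟨fun e => e ▸ z0, fun a => setOf_unique h a z0⟩
    · simp only [val, if_neg c]
      exact Or.inl z0
  · have e : S.mem (num i) A ↔ k i = true := by
      rw [hA, (num_inj h).mem_set_image]
      exact ⟨fun a => a.2, fun a => ⟨hi, a⟩⟩
    rw [← e]
    constructor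
    · rintro ⟨b, z, a1, a2⟩
      obtain ⟨-, rfl⟩ := (app _ _).mp a1
      by_contra c
      simp [val, c, h.mem_num] at a2
    · intro c
      refine ⟨_, num 0, (app _ _).mpr ⟨(h.isNat _).mpr ⟨i, rfl⟩, rfl⟩, ?_⟩
      simp [val, c, h.mem_num]

end basics

section top
variable {Y T : M}

theorem top_sub (ht : IsTop S Y T) {U z : M} (hU : S.mem U T) (hz : S.mem z U) : S.mem z Y :=
  (ht.2.1.2 U hU).2 z hz

theorem top_iInter (h : Std S num) (ht : IsTop S Y T) {D : Set M} (hD : D.Finite)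
    (hT : ∀ U ∈ D, S.mem U T) :
    ∃ I, S.mem I T ∧ ∀ z, S.mem z I ↔ S.mem z Y ∧ ∀ U ∈ D, S.mem z U := by
  induction D, hD using Set.Finite.induction_on with
  | empty => exact ⟨Y, ht.2.2.1, by simp⟩
  | @insert a s _ _ ih =>
    obtain ⟨I, hI, h1⟩ := ih fun U hU => hT U (Or.inr hU)
    obtain ⟨J, hJ⟩ := sepU h.zf (fun _ S z v => S.mem z (v 0)) (fun _ => I) a
    refine ⟨J, ht.2.2.2.1 a I J (hT a (Or.inl rfl)) hI hJ, fun z => (hJ.2 z).trans ?_⟩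
    change S.mem z a ∧ S.mem z I ↔ _
    rw [h1, Set.forall_mem_insert]
    tauto

theorem top_iUnion (h : Std S num) (ht : IsTop S Y T) {D : Set M} (hD : D.Finite)
    (hT : ∀ U ∈ D, S.mem U T) : ∃ I, S.mem I T ∧ ∀ z, S.mem z I ↔ ∃ U ∈ D, S.mem z U := by
  obtain ⟨C, hC⟩ := exists_fin h hD
  obtain ⟨I, hI⟩ := h.zf.union C
  refine ⟨I, ht.2.2.2.2 C I ⟨h.set C, fun U hU => hT U ((hC U).mp hU)⟩ hI,
    fun z => (hI.2 z).trans ?_⟩
  exact exists_congr fun U => and_congr_left fun _ => hC U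

theorem cpt_cover (h : Std S num) (hc : IsCpt S Y T) (Q : M → Prop)
    (hQ : ∃ C, S.IsSetOf C fun U => S.mem U T ∧ Q U)
    (hy : ∀ y, S.mem y Y → ∃ U, S.mem U T ∧ Q U ∧ S.mem y U) :
    ∃ D : Set M, D.Finite ∧ (∀ U ∈ D, S.mem U T ∧ Q U) ∧
      ∀ y, S.mem y Y → ∃ U ∈ D, S.mem y U := by
  obtain ⟨C, hC⟩ := hQ
  obtain ⟨D, h1, h2, h3⟩ := hc C ⟨hC.1, fun U hU => ((hC.2 U).mp hU).1⟩ fun y a => by
    obtain ⟨U, a1, a2, a3⟩ := hy y a
    exact ⟨U, (hC.2 U).mpr ⟨a1, a2⟩, a3⟩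
  exact ⟨ex S D, fin_of_isFin h h2, fun U hU => (hC.2 U).mp (h1.2 U hU), h3⟩

/-- Normality: disjoint closed sets have disjoint neighbourhoods. -/
theorem normal (h : Std S num) (ht : IsTop S Y T) (hh : IsHaus S Y T) (hc : IsCpt S Y T)
    {a b : M} (haY : Sb S a Y) (hbY : Sb S b Y) (hab : Dj S a b)
    (ha : ∀ y, S.mem y Y → ¬ S.mem y a → ∃ U, S.mem U T ∧ S.mem y U ∧ Dj S U a)
    (hb : ∀ y, S.mem y Y → ¬ S.mem y b → ∃ U, S.mem U T ∧ S.mem y U ∧ Dj S U b) :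
    ∃ U U', S.mem U T ∧ S.mem U' T ∧ Sb S a U ∧ Sb S b U' ∧ Dj S U U' := by
  have step : ∀ p, S.mem p a → ∃ N O, S.mem N T ∧ S.mem O T ∧ S.mem p N ∧ Sb S b O ∧
      Dj S N O := by
    intro p hp
    obtain ⟨D, h1, h2, h3⟩ := cpt_cover h hc
      (fun O => (∃ N, S.mem N T ∧ S.mem p N ∧ Dj S N O) ∨ Dj S O b)
      (sepU h.zf (fun _ S O v => (∃ N, S.mem N (v 0) ∧ S.mem (v 1) N ∧ Dj S N O) ∨ Dj S O (v 2))
        (cons T (cons p fun _ => b)) T) (by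
        intro y hy
        by_cases hyb : S.mem y b
        · obtain ⟨N, O, a1, a2, a3, a4, a5⟩ := hh p y (haY p hp) hy
            (by rintro rfl; exact hab _ hp hyb)
          exact ⟨O, a2, Or.inl ⟨N, a1, a3, a5⟩, a4⟩
        · obtain ⟨U, a1, a2, a3⟩ := hb y hy hyb
          exact ⟨U, a1, Or.inr a3, a2⟩)
    let D' := {O | O ∈ D ∧ ∃ N, S.mem N T ∧ S.mem p N ∧ Dj S N O}
    have hD' : D'.Finite := h1.subset fun O hO => hO.1
    choose! n n1 n2 n3 using fun O (hO : O ∈ D') => hO.2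
    obtain ⟨N, a1, a2⟩ := top_iInter h ht (hD'.image n)
      (by rintro _ ⟨O, hO, rfl⟩; exact n1 O hO)
    obtain ⟨O, b1, b2⟩ := top_iUnion h ht hD' fun O hO => (h2 O hO.1).1
    refine ⟨N, O, a1, b1, (a2 p).mpr ⟨haY p hp, by rintro _ ⟨O, hO, rfl⟩; exact n2 O hO⟩,
      fun y hy => ?_, fun z hz hz' => ?_⟩
    · obtain ⟨U, c1, c2⟩ := h3 y (hbY y hy)
      exact (b2 y).mpr ⟨U, ⟨c1, (h2 U c1).2.resolve_right fun c => c y c2 hy⟩, c2⟩
    · obtain ⟨U, c1, c2⟩ := (b2 z).mp hz'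
      exact n3 U c1 z (((a2 z).mp hz).2 _ ⟨U, c1, rfl⟩) c2
  obtain ⟨D, h1, h2, h3⟩ := cpt_cover h hc
    (fun N => (∃ O, S.mem O T ∧ Sb S b O ∧ Dj S N O) ∨ Dj S N a)
    (sepU h.zf (fun _ S N v => (∃ O, S.mem O (v 0) ∧ Sb S (v 1) O ∧ Dj S N O) ∨ Dj S N (v 2))
      (cons T (cons b fun _ => a)) T) (by
      intro y hy
      by_cases hya : S.mem y a
      · obtain ⟨N, O, a1, a2, a3, a4, a5⟩ := step y hya
        exact ⟨N, a1, Or.inl ⟨O, a2, a4, a5⟩, a3⟩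
      · obtain ⟨U, a1, a2, a3⟩ := ha y hy hya
        exact ⟨U, a1, Or.inr a3, a2⟩)
  let D' := {N | N ∈ D ∧ ∃ O, S.mem O T ∧ Sb S b O ∧ Dj S N O}
  have hD' : D'.Finite := h1.subset fun O hO => hO.1
  choose! n n1 n2 n3 using fun O (hO : O ∈ D') => hO.2
  obtain ⟨O, a1, a2⟩ := top_iInter h ht (hD'.image n) (by rintro _ ⟨O, hO, rfl⟩; exact n1 O hO)
  obtain ⟨N, b1, b2⟩ := top_iUnion h ht hD' fun O hO => (h2 O hO.1).1
  refine ⟨N, O, b1, a1, fun y hy => ?_,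
    fun y hy => (a2 y).mpr ⟨hbY y hy, by rintro _ ⟨O, hO, rfl⟩; exact n2 O hO y hy⟩,
    fun z hz hz' => ?_⟩
  · obtain ⟨U, c1, c2⟩ := h3 y (haY y hy)
    exact (b2 y).mpr ⟨U, ⟨c1, (h2 U c1).2.resolve_right fun c => c y c2 hy⟩, c2⟩
  · obtain ⟨U, c1, c2⟩ := (b2 z).mp hz
    exact n3 U c1 z c2 (((a2 z).mp hz').2 _ ⟨U, c1, rfl⟩)

/-- Finitely many points can be removed from a neighbourhood. -/
theorem avoid (h : Std S num) (ht : IsTop S Y T) (hh : IsHaus S Y T) {U y : M} (hU : S.mem U T)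
    (hy : S.mem y U) {Z : Set M} (hZ : Z.Finite) (hZY : ∀ z ∈ Z, S.mem z Y) (hyZ : y ∉ Z) :
    ∃ V, S.mem V T ∧ S.mem y V ∧ Sb S V U ∧ ∀ z ∈ Z, ¬ S.mem z V := by
  have : ∀ z ∈ Z, ∃ N, S.mem N T ∧ S.mem y N ∧ ¬ S.mem z N := by
    intro z hz
    obtain ⟨N, O, a1, -, a3, a4, a5⟩ := hh y z (top_sub ht hU hy) (hZY z hz)
      (by rintro rfl; exact hyZ hz)
    exact ⟨N, a1, a3, fun c => a5 z c a4⟩
  choose! n n1 n2 n3 using this
  obtain ⟨V, a1, a2⟩ := top_iInter h ht ((hZ.image n).insert U)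
    (by rintro _ (rfl | ⟨z, hz, rfl⟩); exacts [hU, n1 z hz])
  refine ⟨V, a1, (a2 y).mpr ⟨top_sub ht hU hy, ?_⟩, fun z hz => ((a2 z).mp hz).2 U (Or.inl rfl),
    fun z hz c => n3 z hz (((a2 z).mp c).2 _ (Or.inr ⟨z, hz, rfl⟩))⟩
  rintro _ (rfl | ⟨z, hz, rfl⟩)
  exacts [hy, n2 z hz]

end top

end ZCube

open ZCube in
theorem std_tree_of_remainder {M : Type 1} {S : Str M} {num : ℕ → M} (h : Std S num) {X : M}
    (hX : IsRemainder S X (PtC S) (OpC S)) : Tree S X := by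
  obtain ⟨Y, T, e, r, ht, hh, hc, he, hdisc, hdense, hi, hsurj, hopen⟩ := hX
  have hrY : ∀ y f, S.App r y f → S.mem y Y ∧ ¬ ∃ x, S.App e x y := fun y f a => fun_dom h hi.1 a
  have hX : ∀ x y, S.App e x y → S.mem x X := fun x y a =>
    fun_dom (P := fun x => S.mem x X) h he.1 a
  have hYc : ∀ y, S.mem y Y → (∃ x, S.App e x y) ∨ ∃ f, S.App r y f := fun y hy =>
    or_iff_not_imp_left.mpr fun c => (hi.1.2.2 y ⟨hy, c⟩).exists
  have iso : ∀ x y, S.App e x y → ∃ U, S.mem U T ∧ ∀ z, S.mem z U ↔ z = y := by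
    intro x y hx
    obtain ⟨U, hU, h1⟩ := hdisc x y hx
    refine ⟨U, hU, fun z => ⟨fun hz => ?_, fun c => c ▸ (h1 x y hx).mpr rfl⟩⟩
    by_contra hz'
    obtain ⟨V, a1, a2, a3, a4⟩ := avoid h ht hh hU hz (Set.finite_singleton y)
      (by simpa using he.2.1 _ _ hx) hz'
    obtain ⟨x', y', b1, b2⟩ := hdense V z a1 a2
    obtain rfl := (h1 x' y' b1).mp (a3 _ b2)
    exact a4 y' (fun_unique h he.1 b1 hx) b2
  have cof : ∀ U U', S.mem U T → S.mem U' T → (∀ y f, S.App r y f → S.mem y U ∨ S.mem y U') →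
      {x | ∃ y, S.App e x y ∧ ¬ S.mem y U ∧ ¬ S.mem y U'}.Finite := by
    intro U U' hU hU' hk
    obtain ⟨D, h1, h2, h3⟩ := cpt_cover h hc
      (fun O => O = U ∨ O = U' ∨ ∃ y, ∀ z, S.mem z O → z = y)
      (sepU h.zf (fun _ S O v => O = v 0 ∨ O = v 1 ∨ ∃ y, ∀ z, S.mem z O → z = y)
        (cons U fun _ => U') T) (by
        intro y hy
        rcases hYc y hy with ⟨x, hx⟩ | ⟨f, hf⟩
        · obtain ⟨O, a1, a2⟩ := iso x y hx
          exact ⟨O, a1, Or.inr (Or.inr ⟨y, fun z => (a2 z).mp⟩), (a2 y).mpr rfl⟩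
        · rcases hk y f hf with a | a
          exacts [⟨U, hU, Or.inl rfl, a⟩, ⟨U', hU', Or.inr (Or.inl rfl), a⟩])
    refine ((h1.subset fun O (hO : O ∈ {O | O ∈ D ∧ ∃ y, ∀ z, S.mem z O → z = y}) =>
      hO.1).biUnion (t := fun O => {x | ∃ y, S.App e x y ∧ S.mem y O}) ?_).subset ?_
    · rintro O ⟨-, y, hy⟩
      refine Set.Subsingleton.finite ?_
      rintro x ⟨z, a1, a2⟩ x' ⟨z', b1, b2⟩
      exact he.2.2 _ _ y (hy z a2 ▸ a1) (hy z' b2 ▸ b1)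
    · rintro x ⟨y, a1, a2, a3⟩
      obtain ⟨O, b1, b2⟩ := h3 y (he.2.1 _ _ a1)
      rcases (h2 O b1).2 with rfl | rfl | b3
      · exact (a2 b2).elim
      · exact (a3 b2).elim
      · exact Set.mem_iUnion₂.mpr ⟨O, ⟨b1, b3⟩, y, a1, b2⟩
  obtain ⟨R, hR⟩ := sepU h.zf (fun _ S y v => ¬ ∃ x, S.App (v 0) x y) (fun _ => e) Y
  obtain ⟨K, hK⟩ := replU h.zf (fun _ S y f v => S.App (v 0) y f) (fun _ => r) R
    fun y hy => hi.1.2.2 y ((hR.2 y).mp hy)
  have hK' : ∀ f, S.mem f K ↔ PtC S f := fun f => (hK.2 f).trans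
    ⟨fun ⟨y, _, a⟩ => hi.2.1 y f a, fun a => by
      obtain ⟨y, hy⟩ := hsurj f a
      exact ⟨y, (hR.2 y).mpr (hrY y f hy), hy⟩⟩
  have opn : ∀ (n : ℕ) (Z : M → Prop), (∃ V, S.IsSetOf V fun f => S.mem f K ∧ Z f) →
      (∀ f g, PtC S f → PtC S g → (∀ i b, S.mem i (num n) → S.App f i b → S.App g i b) →
        Z f → Z g) → ∃ U, S.mem U T ∧ ∀ y f, S.App r y f → (S.mem y U ↔ Z f) := by
    rintro n Z ⟨V, hV⟩ hZ
    obtain ⟨U, hU, h1⟩ := (hopen V ⟨hV.1, fun z hz => (hK' z).mp ((hV.2 z).mp hz).1⟩).mp (by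
      intro f hf
      obtain ⟨a1, a2⟩ := (hV.2 f).mp hf
      exact ⟨num n, (h.isNat _).mpr ⟨n, rfl⟩, fun g hg c =>
        (hV.2 g).mpr ⟨(hK' g).mpr hg, hZ f g ((hK' f).mp a1) hg c a2⟩⟩)
    exact ⟨U, hU, fun y f a => (h1 y f a).trans
      ((hV.2 f).trans (and_iff_right ((hK' f).mpr (hi.2.1 y f a))))⟩
  have clo : ∀ (Z : M → Prop) (a U : M), (∀ y, S.mem y a ↔ S.mem y Y ∧ ∃ f, S.App r y f ∧ Z f) →
      S.mem U T → (∀ y f, S.App r y f → (S.mem y U ↔ ¬ Z f)) →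
      ∀ y, S.mem y Y → ¬ S.mem y a → ∃ U, S.mem U T ∧ S.mem y U ∧ Dj S U a := by
    intro Z a U ha hU h1 y hy hya
    rcases hYc y hy with ⟨x, hx⟩ | ⟨f, hf⟩
    · obtain ⟨O, a1, a2⟩ := iso x y hx
      exact ⟨O, a1, (a2 y).mpr rfl, fun z hz => (a2 z).mp hz ▸ hya⟩
    · refine ⟨U, hU, (h1 y f hf).mpr fun c => hya ((ha y).mpr ⟨hy, f, hf, c⟩), fun z hz hz' => ?_⟩
      obtain ⟨-, g, b1, b2⟩ := (ha z).mp hz'
      exact (h1 z g b1).mp hz b2
  have hex : ∀ n k, ∃ W, Gd S (Cyl S k n) T e r W := by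
    intro n k
    obtain ⟨a, ha⟩ := sepU h.zf (fun _ S y v => ∃ f, S.App (v 0) y f ∧ Cyl S k n f) (fun _ => r) Y
    obtain ⟨b, hb⟩ := sepU h.zf (fun _ S y v => ∃ f, S.App (v 0) y f ∧ ¬ Cyl S k n f)
      (fun _ => r) Y
    obtain ⟨A, a1, a2⟩ := opn n (fun f => ¬ Cyl S k n f)
      (sepU h.zf (fun _ S f _ => ¬ Cyl S k n f) (fun _ => r) K)
      fun f g hf hg c => (not_congr (cyl_congr h k n hf hg c)).mp
    obtain ⟨B, b1, b2⟩ := opn n (Cyl S k n) (sepU h.zf (fun _ S f _ => Cyl S k n f) (fun _ => r) K)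
      fun f g hf hg c => (cyl_congr h k n hf hg c).mp
    obtain ⟨U, U', hU, hU', d1, d2, d3⟩ := normal h ht hh hc (a := a) (b := b)
      (fun y hy => ((ha.2 y).mp hy).1) (fun y hy => ((hb.2 y).mp hy).1)
      (fun y hy hy' => by
        obtain ⟨-, f, c1, c2⟩ := (ha.2 y).mp hy
        obtain ⟨-, g, c3, c4⟩ := (hb.2 y).mp hy'
        exact c4 (fun_unique h hi.1 c1 c3 ▸ c2))
      (clo _ a A ha.2 a1 a2)
      (clo _ b B hb.2 b1 fun y f c => (b2 y f c).trans not_not.symm)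
    obtain ⟨W, hW⟩ := sepU h.zf (fun _ S x v => ∃ y, S.App (v 0) x y ∧ S.mem y (v 1))
      (cons e fun _ => U) X
    exact ⟨W, U, U', hU, hU', fun y f c1 c2 => d1 y ((ha.2 y).mpr ⟨(hrY y f c1).1, f, c1, c2⟩),
      fun y f c1 c2 => d2 y ((hb.2 y).mpr ⟨(hrY y f c1).1, f, c1, c2⟩), d3,
      fun x => (hW.2 x).trans (and_iff_right_of_imp fun ⟨y, c, _⟩ => hX x y c)⟩
  have hmono : ∀ (Z Z' : M → Prop) W W', (∀ f, Z f → Z' f) → Gd S Z T e r W → Gd S Z' T e r W' →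
      (ex S W \ ex S W').Finite := by
    rintro Z Z' W W' hZ ⟨U, U', -, hU', -, a2, a3, a4⟩ ⟨V, -, hV, -, b1, -, -, b4⟩
    refine (cof U' V hU' hV fun y f c => ?_).subset ?_
    · by_cases hk : Z f
      exacts [Or.inr (b1 y f c (hZ f hk)), Or.inl (a2 y f c hk)]
    · rintro x ⟨h1, h2⟩
      obtain ⟨y, c1, c2⟩ := (a4 x).mp h1
      exact ⟨y, c1, a3 y c2, fun h3 => h2 ((b4 x).mpr ⟨y, c1, h3⟩)⟩
  have hdis : ∀ (Z Z' : M → Prop) W W', (∀ f, Z f → ¬ Z' f) → Gd S Z T e r W →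
      Gd S Z' T e r W' → (ex S W ∩ ex S W').Finite := by
    rintro Z Z' W W' hZ ⟨U, U', -, hU', -, a2, a3, a4⟩ ⟨V, V', -, hV', -, b2, b3, b4⟩
    refine (cof U' V' hU' hV' fun y f c => ?_).subset ?_
    · by_cases hk : Z f
      exacts [Or.inr (b2 y f c (hZ f hk)), Or.inl (a2 y f c hk)]
    · rintro x ⟨h1, h2⟩
      obtain ⟨y, c1, c2⟩ := (a4 x).mp h1
      obtain ⟨y', c3, c4⟩ := (b4 x).mp h2
      obtain rfl := fun_unique h he.1 c1 c3
      exact ⟨y, c1, a3 y c2, b3 y c4⟩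
  choose W hW using hex
  choose φ hφ using fun n k => UD.fm _ (h := ud_gd k n)
  refine ⟨cons T (cons e fun _ => r), fun n k => φ (n + 1) k, fun n k => W (n + 1) k,
    (Set.toFinite {T, e, r}).subset ?_, fun n k => ?_, fun n k => (hφ _ _ _ _ _).mpr (hW _ k),
    fun n k U hU => hmono _ _ _ _ (fun _ c => c) ((hφ _ _ _ _ _).mp hU) (hW _ k),
    fun n k k' c => hmono _ _ _ _ (fun f hf => ?_) (hW _ k) (hW _ k'),
    fun n k => hmono _ _ _ _ (fun f hf => hf.1) (hW _ k) (hW _ k),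
    fun n k k' ⟨i, c1, c2⟩ => hdis _ _ _ _ (fun f hf hf' => c2 ?_) (hW _ k) (hW _ k')⟩
  · rintro _ ⟨_ | _ | i, rfl⟩ <;> simp
  · obtain ⟨U, -, hU, -, a1, -, -, a4⟩ := hW (n + 1) k
    refine ⟨fun x hx => ?_, fun hfin => ?_⟩
    · obtain ⟨y, c, -⟩ := (a4 x).mp hx
      exact hX x y c
    · obtain ⟨f, f1, f2⟩ := exists_pt h k (n + 1)
      obtain ⟨y, hy⟩ := hsurj f f1
      have fin : {z | ∃ x ∈ ex S (W (n + 1) k), S.App e x z}.Finite :=
        (hfin.biUnion (t := fun x => {z | S.App e x z}) fun x _ =>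
          Set.Subsingleton.finite fun z a z' b => fun_unique h he.1 a b).subset
          fun z ⟨x, c1, c2⟩ => Set.mem_iUnion₂.mpr ⟨x, c1, c2⟩
      obtain ⟨V, b1, b2, b3, b4⟩ := avoid h ht hh hU (a1 y f hy f2) fin
        (fun z ⟨x, _, c⟩ => he.2.1 x z c) fun ⟨x, _, c⟩ => (hrY y f hy).2 ⟨x, c⟩
      obtain ⟨x, z, d1, d2⟩ := hdense V _ b1 b2
      exact b4 z ⟨x, (a4 x).mpr ⟨z, d1, b3 z d2⟩, d1⟩ d2
  · rw [cyl_iff h] at hf ⊢
    exact fun i hi => c i (by omega) ▸ hf i hi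
  · rw [cyl_iff h] at hf hf'
    exact Bool.eq_iff_iff.mpr ((hf i (by omega)).symm.trans (hf' i (by omega)))

end Pool.Agent.P.MP_ec7d96_lc
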