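import Pool.Agent.P.MP_ec7d96_lc.ZOmega
import Pool.Agent.P.MP_ec7d96_lc.ZCube
import Pool.Agent.P.MP_fb2f7f_lc.ZF.Main

/-! A model of ZF with a set that has the remainder omega + 1 but not the Cantor cube. -/

namespace Pool.Agent.P.MP_ec7d96_lc

open Pool.Agent.Lib.PermModel

theorem mainZF : ∃ (M : Type 1) (S : Str M), S.IsZFA ∧ (∀ x, ¬ S.atm x) ∧ ∃ X,
    IsRemainder S X (PtW S) (OpW S) ∧ ¬ IsRemainder S X (PtC S) (OpC S) := by
  obtain ⟨M, S, num, h, h1, X, h2, h3⟩ := Pool.Agent.P.MP_fb2f7f_lc.ZF.exists_std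
  exact ⟨M, S, h.zf, h.set, X, std_remainder_omega h (h1 X h2),
    fun e => h3 (std_tree_of_remainder h e)⟩

end Pool.Agent.P.MP_ec7d96_lc
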