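import Pool.Agent.P.MP_ec7d96_lc.Defs
import Pool.Agent.Lib.SymExt.Std

/-! In a standard model of ZF a strongly filterbase infinite set has the remainder omega + 1. -/

namespace Pool.Agent.P.MP_ec7d96_lc

open Pool.Agent.Lib.PermModel Pool.Agent.Lib.SymExt

namespace ZO

variable {M : Type 1} {S : Str M} {num : ℕ → M}

theorem ext (h : Std S num) {x y : M} (e : ∀ z, S.mem z x ↔ S.mem z y) : x = y :=
  h.zf.ext x y (h.set x) (h.set y) e

theorem uniq (h : Std S num) {d d' : M} {P : M → Prop} (a : S.IsSetOf d P)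
    (b : S.IsSetOf d' P) : d = d' := ext h fun z => (a.2 z).trans (b.2 z).symm

noncomputable def up (h : Std S num) (x y : M) : M := (h.zf.pairing x y).choose

theorem mem_up (h : Std S num) (x y z : M) : S.mem z (up h x y) ↔ z = x ∨ z = y :=
  (h.zf.pairing x y).choose_spec.2 z

noncomputable def op (h : Std S num) (x y : M) : M := up h (up h x x) (up h x y)

theorem isPair_iff (h : Std S num) (p x y : M) : S.IsPair p x y ↔ p = op h x y := by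
  have a : ∀ u, S.IsSetOf u (fun z => z = x) ↔ u = up h x x := fun u =>
    ⟨fun e => ext h fun z => by rw [e.2, mem_up, or_self], fun e =>
      ⟨h.set u, fun z => by rw [e, mem_up, or_self]⟩⟩
  have b : ∀ u, S.IsSetOf u (fun z => z = x ∨ z = y) ↔ u = up h x y := fun u =>
    ⟨fun e => ext h fun z => by rw [e.2, mem_up], fun e => ⟨h.set u, fun z => by rw [e, mem_up]⟩⟩
  constructor
  · intro e
    exact ext h fun z => by rw [e.2, op, mem_up]; exact or_congr (a z) (b z)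
  · rintro rfl
    exact ⟨h.set _, fun z => by rw [op, mem_up]; exact (or_congr (a z) (b z)).symm⟩

theorem up_inj (h : Std S num) {x y y' : M} (e : up h x y = up h x y') : y = y' := by
  have a := (mem_up h x y' y).1 (e ▸ (mem_up h x y y).2 (Or.inr rfl))
  have b := (mem_up h x y y').1 (e ▸ (mem_up h x y' y').2 (Or.inr rfl))
  rcases a with a | a
  · rcases b with b | b
    · rw [a, b]
    · exact b.symm
  · exact a

theorem op_inj (h : Std S num) {x y x' y' : M} (e : op h x y = op h x' y') :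
    x = x' ∧ y = y' := by
  have a : S.mem (up h x x) (op h x' y') := e ▸ (mem_up h _ _ _).2 (Or.inl rfl)
  have b : x = x' := by
    have c : S.mem x' (up h x x) := by
      rcases (mem_up h _ _ _).1 a with a | a <;> rw [a, mem_up] <;> exact Or.inl rfl
    exact ((mem_up h _ _ _).1 c).elim Eq.symm Eq.symm
  subst b
  exact ⟨rfl, up_inj h (up_inj h e)⟩

theorem app_iff (h : Std S num) (f x y : M) : S.App f x y ↔ op h x y ∈ ex S f :=
  ⟨fun ⟨_, a, b⟩ => (isPair_iff h _ _ _).1 b ▸ a, fun a => ⟨_, a, (isPair_iff h _ _ _).2 rfl⟩⟩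

theorem not_mem_self (h : Std S num) (x : M) : ¬ S.mem x x := by
  intro a
  obtain ⟨y, b, c⟩ := h.zf.foundation (up h x x) x ((mem_up h _ _ _).2 (Or.inl rfl))
  have e : y = x := ((mem_up h _ _ _).1 b).elim id id
  exact c x (e ▸ a) ((mem_up h _ _ _).2 (Or.inl rfl))

theorem num_inj (h : Std S num) : Function.Injective num := by
  intro n m e
  by_contra a
  rcases Nat.lt_or_gt_of_ne a with b | b
  · exact not_mem_self h (num m) ((h.mem_num m _).2 ⟨n, b, e.symm⟩)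
  · exact not_mem_self h (num n) ((h.mem_num n _).2 ⟨m, b, e⟩)

theorem num_mem (h : Std S num) (n m : ℕ) : S.mem (num n) (num m) ↔ n < m :=
  (h.mem_num m _).trans ⟨fun ⟨_, a, e⟩ => num_inj h e ▸ a, fun a => ⟨n, a, rfl⟩⟩

theorem exists_union (h : Std S num) (a b : M) : ∃ d, ex S d = ex S a ∪ ex S b := by
  obtain ⟨d, hd⟩ := h.zf.union (up h a b)
  refine ⟨d, Set.ext fun z => (hd.2 z).trans ⟨?_, ?_⟩⟩
  · rintro ⟨y, h1, h2⟩
    rcases (mem_up h _ _ _).1 h1 with rfl | rfl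
    · exact Or.inl h2
    · exact Or.inr h2
  · rintro (h1 | h1)
    · exact ⟨a, (mem_up h _ _ _).2 (Or.inl rfl), h1⟩
    · exact ⟨b, (mem_up h _ _ _).2 (Or.inr rfl), h1⟩

theorem exists_fin (h : Std S num) {Z : Set M} (hZ : Z.Finite) : ∃ d, ex S d = Z := by
  obtain ⟨d, hd, -⟩ := (h.finC_iff fun z => z ∈ Z).2 hZ
  exact ⟨d, Set.ext hd.2⟩

theorem exists_diff (h : Std S num) (a b : M) :
    ∃ d, S.IsSetOf d fun z => z ∈ ex S a ∧ z ∉ ex S b :=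
  sepU h.zf (fun _ S z v => ¬ S.mem z (v 0)) (fun _ => b) a

theorem exists_om (h : Std S num) : ∃ w, S.IsSetOf w S.IsNat := by
  obtain ⟨I, hI⟩ := h.zf.infinity
  obtain ⟨w, hw⟩ := sepU h.zf (fun _ S z _ => S.IsNat z) (fun _ => I) I
  exact ⟨w, hw.1, fun z => (hw.2 z).trans ⟨fun a => a.2, fun a => ⟨a I hI, a⟩⟩⟩

theorem exists_img (h : Std S num) (a d : M) : ∃ U, ex S U = op h a '' ex S d := by
  obtain ⟨U, hU⟩ := replU h.zf (fun _ S x y v => S.IsPair y (v 0) x) (fun _ => a) d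
    fun x _ => ⟨op h a x, (isPair_iff h _ _ _).2 rfl, fun y hy => (isPair_iff h _ _ _).1 hy⟩
  refine ⟨U, Set.ext fun z => (hU.2 z).trans ?_⟩
  simp only [isPair_iff h]
  exact ⟨fun ⟨x, a, b⟩ => ⟨x, a, b.symm⟩, fun ⟨x, a, b⟩ => ⟨x, a, b.symm⟩⟩

theorem isFun_of (h : Std S num) {f : M} {ι : Type 1} {D : Set ι} {a b : ι → M}
    (ha : Function.Injective a) (hf : ex S f = (fun i => op h (a i) (b i)) '' D) :
    S.IsFun f (fun y => ∃ i ∈ D, y = a i) ∧ ∀ x y, S.App f x y ↔ ∃ i ∈ D, x = a i ∧ y = b i := by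
  have happ : ∀ x y, S.App f x y ↔ ∃ i ∈ D, x = a i ∧ y = b i := by
    intro x y
    rw [app_iff h, hf]
    constructor
    · rintro ⟨i, hi, e⟩
      exact ⟨i, hi, (op_inj h e).1.symm, (op_inj h e).2.symm⟩
    · rintro ⟨i, hi, rfl, rfl⟩
      exact ⟨i, hi, rfl⟩
  refine ⟨⟨h.set f, fun p hp => ?_, ?_⟩, happ⟩
  · obtain ⟨i, hi, rfl⟩ : p ∈ (fun i => op h (a i) (b i)) '' D := hf ▸ hp
    exact ⟨a i, b i, ⟨i, hi, rfl⟩, (isPair_iff h _ _ _).2 rfl⟩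
  · rintro _ ⟨i, hi, rfl⟩
    refine ⟨b i, (happ _ _).2 ⟨i, hi, rfl, rfl⟩, fun y hy => ?_⟩
    obtain ⟨j, -, e, rfl⟩ := (happ _ _).1 hy
    rw [ha e]

theorem exists_emb (h : Std S num) (a d : M) :
    ∃ f, S.IsFun f (S.mem · d) ∧ ∀ x y, S.App f x y ↔ x ∈ ex S d ∧ y = op h a x := by
  obtain ⟨f, hf⟩ := replU h.zf (fun _ S x y v => ∃ q, S.IsPair q (v 0) x ∧ S.IsPair y x q)
    (fun _ => a) d fun x _ => by simp only [isPair_iff h]; simp
  have e : ex S f = (fun i => op h (id i) (op h a i)) '' ex S d := by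
    refine Set.ext fun z => (hf.2 z).trans ?_
    simp only [isPair_iff h]
    exact ⟨fun ⟨x, a, _, b, c⟩ => ⟨x, a, (b ▸ c).symm⟩, fun ⟨x, a, b⟩ => ⟨x, a, _, rfl, b.symm⟩⟩
  obtain ⟨h1, h2⟩ := isFun_of h Function.injective_id e
  refine ⟨f, ?_, fun x y => (h2 x y).trans
    ⟨fun ⟨i, a, b, c⟩ => ⟨b ▸ a, b ▸ c⟩, fun ⟨a, b⟩ => ⟨x, a, rfl, b⟩⟩⟩
  have : (fun y => ∃ i ∈ ex S d, y = id i) = (S.mem · d) :=
    funext fun y => propext ⟨fun ⟨i, a, b⟩ => b ▸ a, fun a => ⟨y, a, rfl⟩⟩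
  exact this ▸ h1

theorem exists_proj (h : Std S num) (a d : M) :
    ∃ f, S.IsFun f (fun y => ∃ k ∈ ex S d, y = op h a k) ∧
      ∀ x y, S.App f x y ↔ ∃ k ∈ ex S d, x = op h a k ∧ y = k := by
  obtain ⟨f, hf⟩ := replU h.zf (fun _ S x y v => ∃ q, S.IsPair q (v 0) x ∧ S.IsPair y q x)
    (fun _ => a) d fun x _ => by simp only [isPair_iff h]; simp
  have e : ex S f = (fun i => op h (op h a i) (id i)) '' ex S d := by
    refine Set.ext fun z => (hf.2 z).trans ?_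
    simp only [isPair_iff h]
    exact ⟨fun ⟨x, a, _, b, c⟩ => ⟨x, a, (b ▸ c).symm⟩, fun ⟨x, a, b⟩ => ⟨x, a, _, rfl, b.symm⟩⟩
  exact ⟨f, isFun_of h (fun x y e => (op_inj h e).2) e⟩

theorem seq_of_sfi (h : Std S num) {X : M} (hX : S.SFI X) :
    ∃ (F : M) (V W : ℕ → M), (∀ x y, S.App F x y ↔ ∃ i, x = num i ∧ y = V i) ∧
      (∀ i, S.mem (W i) (V i)) ∧ (∀ i, ex S (W i) ⊆ ex S X) ∧ (∀ i, (ex S (W i)).Infinite) ∧
      (∀ i j, i ≠ j → (ex S (W i) ∩ ex S (W j)).Finite) ∧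
      ∀ i U U', S.mem U (V i) → S.mem U' (V i) → (ex S U \ ex S U').Finite := by
  obtain ⟨f, hf, hgood, h3, -⟩ := hX
  have hV : ∀ i, ∃ V, S.App f (num i) V := fun i =>
    (hf.2.2 _ ((h.isNat _).mpr ⟨i, rfl⟩)).exists
  choose V hV using hV
  have hG := fun i => hgood _ _ (hV i)
  choose W hW using fun i => (hG i).2.2.1
  have hdiff : ∀ i U U', S.mem U (V i) → S.mem U' (V i) → (ex S U \ ex S U').Finite :=
    fun i U U' hU hU' => (h.finC_iff _).mp ((hG i).2.2.2.2.2.2.2 U U' hU hU')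
  refine ⟨f, V, W, fun x y => ⟨fun a => ?_, ?_⟩, hW, fun i => ((hG i).2.1 _ (hW i)).2,
    fun i => ?_, fun i j hij => ?_, hdiff⟩
  · obtain ⟨p, hp, hp'⟩ := id a
    obtain ⟨x', y', b, c⟩ := hf.2.1 p hp
    rw [isPair_iff h] at hp' c
    obtain ⟨rfl, rfl⟩ := op_inj h (hp'.symm.trans c)
    obtain ⟨i, rfl⟩ := (h.isNat _).mp b
    exact ⟨i, rfl, (hf.2.2 _ b).unique a (hV i)⟩
  · rintro ⟨i, rfl, rfl⟩
    exact hV i
  · have := (hG i).2.2.2.2.2.2.1 _ (hW i)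
    rwa [h.isFin_iff] at this
  · obtain ⟨U, U', hU, hU', h4⟩ := h3 _ _ _ _ (fun e => hij (num_inj h e)) (hV i) (hV j)
    rw [h.finC_iff] at h4
    refine ((h4.union (hdiff i _ _ (hW i) hU)).union (hdiff j _ _ (hW j) hU')).subset ?_
    rintro z ⟨h1, h2⟩
    by_cases h5 : z ∈ ex S U
    · by_cases h6 : z ∈ ex S U'
      · exact Or.inl (Or.inl ⟨h5, h6⟩)
      · exact Or.inr ⟨h2, h6⟩
    · exact Or.inl (Or.inr ⟨h1, h5⟩)

/-- The open sets, as a formula with the parameters `X`, `F`, zero, one, omega. -/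
def OpI {M : Type 1} (S : Str M) (U X F a b w : M) : Prop :=
  (∀ i V Z, S.App F i V → S.App U b i → S.mem Z V →
    S.FinC fun x => S.mem x Z ∧ ¬ S.App U a x) ∧
  (S.App U b w → ∃ n D, S.IsNat n ∧ (∀ i, S.IsNat i → ¬ S.mem i n → S.App U b i) ∧ S.IsFin D ∧
    (∀ Z, S.mem Z D → ∃ i V, S.mem i n ∧ S.App F i V ∧ S.mem Z V) ∧
    S.FinC fun x => S.mem x X ∧ ¬ S.App U a x ∧ ∀ Z, S.mem Z D → ¬ S.mem x Z)

instance ud_opI (i j k l m n : ℕ) :
    UD fun _ S v => OpI S (v i) (v j) (v k) (v l) (v m) (v n) := by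
  unfold OpI
  infer_instance

theorem exists_top (h : Std S num) (Y X F a b w : M) :
    ∃ T, S.IsSetOf T fun U => ex S U ⊆ ex S Y ∧ OpI S U X F a b w := by
  obtain ⟨P, hP⟩ := h.zf.power Y
  obtain ⟨T, hT⟩ := sepU h.zf (fun _ S U v => OpI S U (v 0) (v 1) (v 2) (v 3) (v 4))
    (cons X (cons F (cons a (cons b fun _ => w)))) P
  exact ⟨T, hT.1, fun U => (hT.2 U).trans (and_congr
    ((hP.2 U).trans ⟨fun c => c.2, fun c => ⟨h.set U, c⟩⟩) Iff.rfl)⟩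

theorem opI_iff (h : Std S num) {X F : M} {V W : ℕ → M}
    (hF : ∀ x y, S.App F x y ↔ ∃ i, x = num i ∧ y = V i) (hW : ∀ i, S.mem (W i) (V i))
    (hae : ∀ i U U', S.mem U (V i) → S.mem U' (V i) → (ex S U \ ex S U').Finite)
    (U a b w : M) :
    OpI S U X F a b w ↔
      (∀ i, op h b (num i) ∈ ex S U → {x | x ∈ ex S (W i) ∧ op h a x ∉ ex S U}.Finite) ∧
      (op h b w ∈ ex S U → ∃ n, (∀ i, n ≤ i → op h b (num i) ∈ ex S U) ∧
        {x | x ∈ ex S X ∧ op h a x ∉ ex S U ∧ ∀ i < n, x ∉ ex S (W i)}.Finite) := by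
  unfold OpI
  simp only [h.finC_iff, h.isFin_iff, hF, app_iff h U]
  refine and_congr ⟨fun c i hi => c _ _ _ ⟨i, rfl, rfl⟩ hi (hW i), ?_⟩
    (imp_congr_right fun _ => ⟨?_, ?_⟩)
  · rintro c _ _ Z ⟨i, rfl, rfl⟩ hi hZ
    refine ((c i hi).union (hae i _ _ hZ (hW i))).subset fun x hx => ?_
    by_cases e : x ∈ ex S (W i)
    · exact Or.inl ⟨e, hx.2⟩
    · exact Or.inr ⟨hx.1, e⟩
  · rintro ⟨n, D, hn, c1, c2, c3, c4⟩
    obtain ⟨n, rfl⟩ := (h.isNat _).1 hn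
    refine ⟨n, fun i hi => c1 _ ((h.isNat _).2 ⟨i, rfl⟩) (by rw [num_mem h]; omega), ?_⟩
    refine (c4.union (c2.biUnion (t := fun Z => {x | x ∈ ex S Z ∧ ∀ i < n, x ∉ ex S (W i)})
      fun Z hZ => ?_)).subset fun x hx => ?_
    · obtain ⟨_, _, d1, ⟨i, rfl, rfl⟩, d2⟩ := c3 Z hZ
      exact (hae i _ _ d2 (hW i)).subset fun x hx => ⟨hx.1, hx.2 i ((num_mem h _ _).1 d1)⟩
    · by_cases e : ∀ Z, S.mem Z D → ¬ S.mem x Z
      · exact Or.inl ⟨hx.1, hx.2.1, e⟩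
      · push Not at e
        obtain ⟨Z, d1, d2⟩ := e
        exact Or.inr (Set.mem_biUnion d1 ⟨d2, hx.2.2⟩)
  · rintro ⟨n, c1, c2⟩
    obtain ⟨D, hD⟩ := exists_fin h ((Set.finite_lt_nat n).image W)
    have hD' : ∀ Z, S.mem Z D ↔ Z ∈ W '' {i | i < n} := fun Z => hD ▸ Iff.rfl
    refine ⟨num n, D, (h.isNat _).2 ⟨n, rfl⟩, fun i hi hn => ?_,
      hD ▸ (Set.finite_lt_nat n).image W, fun Z hZ => ?_, c2.subset fun x hx =>
        ⟨hx.1, hx.2.1, fun i hi => hx.2.2 _ ((hD' _).2 ⟨i, hi, rfl⟩)⟩⟩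
    · obtain ⟨i, rfl⟩ := (h.isNat _).1 hi
      exact c1 i (by rw [num_mem h] at hn; omega)
    · obtain ⟨i, hi, rfl⟩ := (hD' Z).1 hZ
      exact ⟨_, _, (num_mem h _ _).2 hi, ⟨i, rfl, rfl⟩, hW i⟩

end ZO

open ZO in
theorem std_remainder_omega {M : Type 1} {S : Str M} {num : ℕ → M} (h : Std S num) {X : M}
    (hX : S.SFI X) : IsRemainder S X (PtW S) (OpW S) := by
  classical
  obtain ⟨F, VV, W, hF, hW, hsub, hinf, hdisj, hae⟩ := seq_of_sfi h hX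
  obtain ⟨w, hw⟩ := exists_om h
  let kk : Option ℕ → M := fun o => o.elim w num
  have hwn : ∀ n, w ≠ num n := fun n e => by
    have := (hw.2 (num n)).mpr ((h.isNat _).mpr ⟨n, rfl⟩)
    rw [e] at this
    exact not_mem_self h _ this
  have kinj : Function.Injective kk := by
    rintro (_ | a) (_ | b) e
    · rfl
    · exact (hwn b e).elim
    · exact (hwn a e.symm).elim
    · rw [num_inj h e]
  have kP : ∀ k, PtW S k ↔ ∃ o, k = kk o := by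
    intro k
    constructor
    · rintro (a | a)
      · obtain ⟨n, rfl⟩ := (h.isNat _).mp a
        exact ⟨some n, rfl⟩
      · exact ⟨none, uniq h a hw⟩
    · rintro ⟨_ | a, rfl⟩
      · exact Or.inr hw
      · exact Or.inl ((h.isNat _).mpr ⟨a, rfl⟩)
  obtain ⟨K, hK⟩ : ∃ K, ∀ k, k ∈ ex S K ↔ ∃ o, k = kk o := by
    obtain ⟨K, hK⟩ := exists_union h w (up h w w)
    refine ⟨K, fun k => ?_⟩
    rw [hK, ← kP]
    exact or_congr (hw.2 k) ((mem_up h _ _ _).trans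
      ⟨fun a => a.elim (· ▸ hw) (· ▸ hw), fun a => Or.inl (uniq h a hw)⟩)
  let em : M → M := fun x => op h (num 0) x
  let pt : Option ℕ → M := fun o => op h (num 1) (kk o)
  have einj : Function.Injective em := fun x y e => (op_inj h e).2
  have pinj : Function.Injective pt := fun x y e => kinj (op_inj h e).2
  have ep : ∀ x o, em x ≠ pt o := fun x o e => by simpa using num_inj h (op_inj h e).1
  let It : Set (Option ℕ) → Prop := fun I => ∃ J, ∀ o, o ∈ I ↔ kk o ∈ ex S J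
  have itU : It Set.univ := ⟨K, fun o => ⟨fun _ => (hK _).2 ⟨o, rfl⟩, fun _ => trivial⟩⟩
  have itF : ∀ I : Set (Option ℕ), I.Finite → It I := fun I hI => by
    obtain ⟨J, hJ⟩ := exists_fin h (hI.image kk)
    exact ⟨J, fun o => by rw [hJ, kinj.mem_set_image]⟩
  have itC : ∀ I : Set (Option ℕ), It I → It Iᶜ := fun I ⟨J, hJ⟩ => by
    obtain ⟨J', hJ'⟩ := exists_diff h K J
    exact ⟨J', fun o => ((hJ'.2 _).trans ((and_iff_right ((hK _).2 ⟨o, rfl⟩)).trans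
      (not_congr (hJ o).symm))).symm⟩
  have mkU : ∀ (d : M) (I : Set (Option ℕ)), It I → ∃ U : M, ¬ S.atm U ∧
      ex S U = em '' ex S d ∪ pt '' I := by
    rintro d I ⟨J, hJ⟩
    obtain ⟨J1, h1⟩ := exists_diff h K J
    obtain ⟨J2, h2⟩ := exists_diff h K J1
    obtain ⟨A, hA⟩ := exists_img h (num 0) d
    obtain ⟨B, hB⟩ := exists_img h (num 1) J2
    obtain ⟨U, hU⟩ := exists_union h A B
    refine ⟨U, h.set U, ?_⟩
    rw [hU, hA, hB]
    congr 1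
    ext z
    constructor
    · rintro ⟨k, hk, rfl⟩
      obtain ⟨a, b⟩ := (h2.2 k).1 hk
      obtain ⟨o, rfl⟩ := (hK k).1 a
      exact ⟨o, (hJ o).2 (by_contra fun c => b ((h1.2 _).2 ⟨a, c⟩)), rfl⟩
    · rintro ⟨o, ho, rfl⟩
      exact ⟨kk o, (h2.2 _).2 ⟨(hK _).2 ⟨o, rfl⟩, fun c => ((h1.2 _).1 c).2 ((hJ o).1 ho)⟩, rfl⟩
  have mE : ∀ (Z : Set M) (I : Set (Option ℕ)) x, em x ∈ em '' Z ∪ pt '' I ↔ x ∈ Z := by
    intro Z I x
    rw [Set.mem_union, einj.mem_set_image]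
    exact ⟨fun h => h.elim id fun ⟨o, _, e⟩ => (ep x o e.symm).elim, Or.inl⟩
  have mP : ∀ (Z : Set M) (I : Set (Option ℕ)) o, pt o ∈ em '' Z ∪ pt '' I ↔ o ∈ I := by
    intro Z I o
    rw [Set.mem_union, pinj.mem_set_image]
    exact ⟨fun h => h.elim (fun ⟨x, _, e⟩ => (ep x o e).elim) id, Or.inr⟩
  obtain ⟨Y, hY0, hY⟩ := mkU X Set.univ itU
  let Op : M → Prop := fun U => (¬ S.atm U ∧ ex S U ⊆ ex S Y) ∧
    (∀ i, pt (some i) ∈ ex S U → {x | x ∈ ex S (W i) ∧ em x ∉ ex S U}.Finite) ∧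
    (pt none ∈ ex S U → ∃ n, (∀ i, n ≤ i → pt (some i) ∈ ex S U) ∧
      {x | x ∈ ex S X ∧ em x ∉ ex S U ∧ ∀ i < n, x ∉ ex S (W i)}.Finite)
  obtain ⟨T, hT⟩ : ∃ T, S.IsSetOf T Op := by
    obtain ⟨T, hT⟩ := exists_top h Y X F (num 0) (num 1) w
    exact ⟨T, hT.1, fun U => (hT.2 U).trans (and_congr (and_iff_right (h.set U)).symm
      (opI_iff h hF hW hae U _ _ _))⟩
  obtain ⟨e, he, heapp⟩ : ∃ f, S.IsFun f (S.mem · X) ∧
    ∀ x y, S.App f x y ↔ x ∈ ex S X ∧ y = em x := exists_emb h (num 0) X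
  obtain ⟨hh, hhf, hhapp⟩ : ∃ f, S.IsFun f (fun y => ∃ o, y = pt o) ∧
      ∀ x y, S.App f x y ↔ ∃ o, x = pt o ∧ y = kk o := by
    obtain ⟨f, h1, h2⟩ := exists_proj h (num 1) K
    have : (fun y => ∃ k ∈ ex S K, y = op h (num 1) k) = fun y => ∃ o, y = pt o := by
      refine funext fun y => propext ⟨?_, fun ⟨o, a⟩ => ⟨kk o, (hK _).2 ⟨o, rfl⟩, a⟩⟩
      rintro ⟨k, hk, rfl⟩
      obtain ⟨o, rfl⟩ := (hK k).1 hk
      exact ⟨o, rfl⟩
    refine ⟨f, this ▸ h1, fun x y => (h2 x y).trans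
      ⟨?_, fun ⟨o, a, b⟩ => ⟨kk o, (hK _).2 ⟨o, rfl⟩, a, b⟩⟩⟩
    rintro ⟨k, hk, rfl, rfl⟩
    obtain ⟨o, rfl⟩ := (hK _).1 hk
    exact ⟨o, rfl, rfl⟩
  have hs := h
  have opU : ∀ (d : M) (I : Set (Option ℕ)), It I → ex S d ⊆ ex S X →
      (∀ i, some i ∈ I → (ex S (W i) \ ex S d).Finite) →
      (none ∈ I → ∃ n, (∀ i, n ≤ i → some i ∈ I) ∧
        {x | x ∈ ex S X ∧ x ∉ ex S d ∧ ∀ i < n, x ∉ ex S (W i)}.Finite) →
      ∃ U, S.mem U T ∧ (∀ x, em x ∈ ex S U ↔ x ∈ ex S d) ∧ (∀ o, pt o ∈ ex S U ↔ o ∈ I) ∧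
        ex S U = em '' ex S d ∪ pt '' I := by
    intro d I h0 h1 h2 h3
    obtain ⟨U, hU0, hU⟩ := mkU d I h0
    have a1 : ∀ x, em x ∈ ex S U ↔ x ∈ ex S d := fun x => by rw [hU, mE]
    have a2 : ∀ o, pt o ∈ ex S U ↔ o ∈ I := fun o => by rw [hU, mP]
    refine ⟨U, (hT.2 U).mpr ⟨⟨hU0, ?_⟩, ?_, ?_⟩, a1, a2, hU⟩
    · rw [hU, hY]
      exact Set.union_subset_union (Set.image_mono h1) (Set.image_mono (Set.subset_univ _))
    · simp only [a1, a2]; exact h2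
    · simp only [a1, a2]; exact h3
  have sepr : ∀ (d : M) (I : Set ℕ), I.Finite → ex S d ⊆ ex S X →
      (∀ i ∈ I, (ex S (W i) \ ex S d).Finite) → (ex S d \ ⋃ i ∈ I, ex S (W i)).Finite →
      ∃ U U', S.mem U T ∧ S.mem U' T ∧ (∀ x, em x ∈ ex S U ↔ x ∈ ex S d) ∧
        (∀ o, pt o ∈ ex S U ↔ o ∈ some '' I) ∧ ∀ z ∈ ex S Y, z ∈ ex S U' ↔ z ∉ ex S U := by
    intro d I hI h1 h2 h3
    obtain ⟨U, hU, a1, a2, -⟩ := opU d (some '' I) (itF _ (hI.image _)) h1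
      (fun i hi => h2 i (by simpa using hi))
      (by simp)
    obtain ⟨d', hd'⟩ := exists_diff hs X d
    obtain ⟨n, hn⟩ := hI.bddAbove
    obtain ⟨U', hU', b1, b2, -⟩ := opU d' (some '' I)ᶜ (itC _ (itF _ (hI.image _)))
      (fun z hz => ((hd'.2 z).mp hz).1)
      (fun j hj => by
        refine (h3.union (hI.biUnion fun i hi => hdisj i j ?_)).subset ?_
        · rintro rfl; exact hj ⟨i, hi, rfl⟩
        · rintro z ⟨h4, h5⟩
          have h6 : z ∈ ex S d := by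
            by_contra h6
            exact h5 ((hd'.2 z).mpr ⟨hsub j h4, h6⟩)
          by_cases h7 : z ∈ ⋃ i ∈ I, ex S (W i)
          · obtain ⟨i, hi, h8⟩ := Set.mem_iUnion₂.mp h7
            exact Or.inr (Set.mem_biUnion hi ⟨h8, h4⟩)
          · exact Or.inl ⟨h6, h7⟩)
      (fun _ => ⟨n + 1, fun i hi h => by
          have := hn (show i ∈ I by simpa using h); omega, by
        refine h3.subset ?_
        rintro z ⟨h4, h5, h6⟩
        refine ⟨by by_contra h7; exact h5 ((hd'.2 z).mpr ⟨h4, h7⟩), fun h7 => ?_⟩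
        obtain ⟨i, hi, h8⟩ := Set.mem_iUnion₂.mp h7
        exact h6 i (Nat.lt_succ_of_le (hn hi)) h8⟩)
    refine ⟨U, U', hU, hU', a1, a2, fun z hz => ?_⟩
    rw [hY] at hz
    rcases hz with ⟨x, hx, rfl⟩ | ⟨o, -, rfl⟩
    · rw [a1, b1]
      exact (hd'.2 x).trans (and_iff_right hx)
    · rw [a2, b2]; rfl
  have sing : ∀ x ∈ ex S X, ∃ U U', S.mem U T ∧ S.mem U' T ∧
      (∀ z ∈ ex S Y, z ∈ ex S U ↔ z = em x) ∧ ∀ z ∈ ex S Y, z ∈ ex S U' ↔ z ∉ ex S U := by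
    intro x hx
    have hd : ex S (up hs x x) = {x} := Set.ext fun z => (mem_up hs x x z).trans (by simp)
    obtain ⟨U, U', h1, h2, h3, h4, h5⟩ := sepr (up hs x x) ∅ Set.finite_empty
      (by simpa [hd] using hx) (by simp) (by simp [hd])
    refine ⟨U, U', h1, h2, fun z hz => ?_, h5⟩
    rw [hY] at hz
    rcases hz with ⟨y, -, rfl⟩ | ⟨o, -, rfl⟩
    · rw [h3, hd, einj.eq_iff]; rfl
    · rw [h4]; simpa using (ep x o).symm
  have blk : ∀ i, ∃ U U', S.mem U T ∧ S.mem U' T ∧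
      (∀ o, pt o ∈ ex S U ↔ o = some i) ∧ ∀ z ∈ ex S Y, z ∈ ex S U' ↔ z ∉ ex S U := by
    intro i
    obtain ⟨U, U', h1, h2, -, h4, h5⟩ := sepr (W i) {i} (Set.finite_singleton i) (hsub i)
      (by simp) (by simp)
    exact ⟨U, U', h1, h2, fun o => by rw [h4]; simp, h5⟩
  have hTY : ∀ U, S.mem U T → ex S U ⊆ ex S Y := fun U hU => ((hT.2 U).mp hU).1.2
  have hEY : ∀ x ∈ ex S X, em x ∈ ex S Y := fun x hx => by rw [hY, mE]; exact hx
  have hPY : ∀ o, pt o ∈ ex S Y := fun o => by rw [hY, mP]; trivial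
  refine ⟨Y, T, e, hh, ⟨hY0, ⟨hT.1, fun U hU => ((hT.2 U).mp hU).1⟩, ?_, ?_, ?_⟩, ?_, ?_,
    ⟨he, ?_, ?_⟩, ?_, ?_, ⟨?_, ?_, ?_⟩, ?_, ?_⟩
  · refine (hT.2 Y).mpr ⟨⟨hY0, subset_rfl⟩, fun i _ => Set.finite_empty.subset ?_,
      fun _ => ⟨0, fun i _ => hPY _, Set.finite_empty.subset ?_⟩⟩
    · exact fun x hx => hx.2 (hEY x (hsub i hx.1))
    · exact fun x hx => hx.2.1 (hEY x hx.1)
  · intro U U' I hU hU' hI
    rw [hT.2] at hU hU' ⊢
    have e : ex S I = ex S U ∩ ex S U' := Set.ext hI.2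
    refine ⟨⟨hI.1, e ▸ Set.inter_subset_left.trans hU.1.2⟩, fun i hi => ?_, fun hi => ?_⟩ <;>
      rw [e] at hi ⊢
    · refine ((hU.2.1 i hi.1).union (hU'.2.1 i hi.2)).subset fun z hz => ?_
      by_cases h : em z ∈ ex S U
      · exact Or.inr ⟨hz.1, fun h' => hz.2 ⟨h, h'⟩⟩
      · exact Or.inl ⟨hz.1, h⟩
    · obtain ⟨n, a1, a2⟩ := hU.2.2 hi.1
      obtain ⟨n', b1, b2⟩ := hU'.2.2 hi.2
      refine ⟨max n n', fun i hi => ⟨a1 i (by omega), b1 i (by omega)⟩,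
        (a2.union b2).subset fun z hz => ?_⟩
      by_cases h : em z ∈ ex S U
      · exact Or.inr ⟨hz.1, fun h' => hz.2.1 ⟨h, h'⟩, fun i hi => hz.2.2 i (by omega)⟩
      · exact Or.inl ⟨hz.1, h, fun i hi => hz.2.2 i (by omega)⟩
  · intro C I hC hI
    rw [hT.2]
    have a1 : ∀ U, S.mem U C → ex S U ⊆ ex S I := fun U hU z hz => (hI.2 z).mpr ⟨U, hU, hz⟩
    refine ⟨⟨hI.1, fun z hz => ?_⟩, fun i hi => ?_, fun hi => ?_⟩
    · obtain ⟨U, hU, hz⟩ := (hI.2 z).mp hz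
      exact hTY U (hC.2 U hU) hz
    · obtain ⟨U, hU, hz⟩ := (hI.2 _).mp hi
      exact (((hT.2 U).mp (hC.2 U hU)).2.1 i hz).subset fun z h => ⟨h.1, fun h' => h.2 (a1 U hU h')⟩
    · obtain ⟨U, hU, hz⟩ := (hI.2 _).mp hi
      obtain ⟨n, b1, b2⟩ := ((hT.2 U).mp (hC.2 U hU)).2.2 hz
      exact ⟨n, fun i hi => a1 U hU (b1 i hi),
        b2.subset fun z h => ⟨h.1, fun h' => h.2.1 (a1 U hU h'), h.2.2⟩⟩
  · have key : ∀ x y U U', x ∈ ex S Y → y ∈ ex S Y → S.mem U T → S.mem U' T →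
        (∀ z ∈ ex S Y, z ∈ ex S U' ↔ z ∉ ex S U) → x ∈ ex S U → y ∉ ex S U →
        (∃ U W, S.mem U T ∧ S.mem W T ∧ S.mem x U ∧ S.mem y W ∧
          ∀ z, S.mem z U → ¬ S.mem z W) ∧
        ∃ U W, S.mem U T ∧ S.mem W T ∧ S.mem y U ∧ S.mem x W ∧
          ∀ z, S.mem z U → ¬ S.mem z W := by
      intro x y U U' _ hy hU hU' h hx hy'
      exact ⟨⟨U, U', hU, hU', hx, (h y hy).mpr hy', fun z hz hz' => (h z (hTY U hU hz)).mp hz' hz⟩,
        U', U, hU', hU, (h y hy).mpr hy', hx, fun z hz hz' => (h z (hTY U hU hz')).mp hz hz'⟩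
    intro x y hx hy hxy
    have hx' : x ∈ em '' ex S X ∪ pt '' Set.univ := hY ▸ hx
    have hy' : y ∈ em '' ex S X ∪ pt '' Set.univ := hY ▸ hy
    rcases hx' with ⟨a, ha, rfl⟩ | ⟨o, -, rfl⟩
    · obtain ⟨U, U', h1, h2, h3, h4⟩ := sing a ha
      exact (key _ _ U U' hx hy h1 h2 h4 ((h3 _ hx).mpr rfl)
        fun h => hxy ((h3 _ hy).mp h).symm).1
    rcases hy' with ⟨a, ha, rfl⟩ | ⟨o', -, rfl⟩
    · obtain ⟨U, U', h1, h2, h3, h4⟩ := sing a ha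
      exact (key _ _ U U' hy hx h1 h2 h4 ((h3 _ hy).mpr rfl) fun h => hxy ((h3 _ hx).mp h)).2
    rcases o with _ | i
    · rcases o' with _ | j
      · exact (hxy rfl).elim
      · obtain ⟨U, U', h1, h2, h3, h4⟩ := blk j
        exact (key _ _ U U' hy hx h1 h2 h4 ((h3 _).mpr rfl) (by rw [h3]; simp)).2
    · obtain ⟨U, U', h1, h2, h3, h4⟩ := blk i
      exact (key _ _ U U' hx hy h1 h2 h4 ((h3 _).mpr rfl)
        fun h => hxy (by rw [(h3 _).mp h])).1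
  · intro C hC hcov
    choose! c hc1 hc2 using hcov
    have hO := fun y hy => (hT.2 _).mp (hC.2 _ (hc1 y hy))
    obtain ⟨n, a1, a2⟩ := (hO _ (hPY none)).2.2 (hc2 _ (hPY none))
    let Z : Set M := insert (pt none) ((fun i => pt (some i)) '' {i | i < n} ∪ em ''
      ({x | x ∈ ex S X ∧ em x ∉ ex S (c (pt none)) ∧ ∀ i < n, x ∉ ex S (W i)} ∪
        ⋃ i ∈ {i | i < n}, {x | x ∈ ex S (W i) ∧ em x ∉ ex S (c (pt (some i)))}))
    have hZ : Z.Finite := (((Set.finite_lt_nat n).image _).union ((a2.union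
      ((Set.finite_lt_nat n).biUnion fun i _ => (hO _ (hPY _)).2.1 i (hc2 _ (hPY _)))).image _)).insert _
    have hZY : Z ⊆ ex S Y := by
      rintro _ (rfl | ⟨i, -, rfl⟩ | ⟨x, hx | hx, rfl⟩)
      · exact hPY _
      · exact hPY _
      · exact hEY x hx.1
      · obtain ⟨i, -, hx⟩ := Set.mem_iUnion₂.mp hx
        exact hEY x (hsub i hx.1)
    obtain ⟨D, hD, -⟩ := (hs.finC_iff fun U => U ∈ c '' Z).2 (hZ.image c)
    refine ⟨D, ⟨hD.1, fun U hU => ?_⟩, ?_, fun y hy => ?_⟩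
    · obtain ⟨z, hz, rfl⟩ := (hD.2 U).mp hU
      exact hc1 z (hZY hz)
    · rw [hs.isFin_iff]
      exact (hZ.image c).subset fun U hU => (hD.2 U).mp hU
    · suffices ∃ z ∈ Z, y ∈ ex S (c z) by
        obtain ⟨z, hz, h⟩ := this
        exact ⟨c z, (hD.2 _).mpr ⟨z, hz, rfl⟩, h⟩
      by_cases hyZ : y ∈ Z
      · exact ⟨y, hyZ, hc2 y hy⟩
      have hy' : y ∈ em '' ex S X ∪ pt '' Set.univ := hY ▸ hy
      rcases hy' with ⟨x, hx, rfl⟩ | ⟨_ | i, -, rfl⟩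
      · by_cases h1 : em x ∈ ex S (c (pt none))
        · exact ⟨_, Set.mem_insert _ _, h1⟩
        · by_cases h2 : ∀ i < n, x ∉ ex S (W i)
          · exact (hyZ (Or.inr (Or.inr ⟨x, Or.inl ⟨hx, h1, h2⟩, rfl⟩))).elim
          · push Not at h2
            obtain ⟨i, hi, h2⟩ := h2
            refine ⟨pt (some i), Or.inr (Or.inl ⟨i, hi, rfl⟩), ?_⟩
            by_contra h3
            exact hyZ (Or.inr (Or.inr ⟨x, Or.inr (Set.mem_biUnion hi ⟨h2, h3⟩), rfl⟩))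
      · exact (hyZ (Set.mem_insert _ _)).elim
      · by_cases hi : i < n
        · exact (hyZ (Or.inr (Or.inl ⟨i, hi, rfl⟩))).elim
        · exact ⟨_, Set.mem_insert _ _, a1 i (by omega)⟩
  · intro x y h
    obtain ⟨hx, rfl⟩ := (heapp _ _).mp h
    exact hEY x hx
  · intro x x' y h h'
    exact einj (((heapp _ _).mp h).2.symm.trans ((heapp _ _).mp h').2)
  · intro x y h
    obtain ⟨hx, rfl⟩ := (heapp _ _).mp h
    obtain ⟨U, -, h1, -, h3, -⟩ := sing x hx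
    refine ⟨U, h1, fun x' y' h' => ?_⟩
    obtain ⟨hx', rfl⟩ := (heapp _ _).mp h'
    exact (h3 _ (hEY x' hx')).trans einj.eq_iff
  · intro U y hU hy
    have hO := (hT.2 U).mp hU
    have a1 : ∀ i, pt (some i) ∈ ex S U → ∃ x y', S.App e x y' ∧ S.mem y' U := by
      intro i hi
      obtain ⟨x, hx, hx'⟩ := (hinf i).exists_notMem_finite (hO.2.1 i hi)
      refine ⟨x, em x, (heapp _ _).mpr ⟨hsub i hx, rfl⟩, ?_⟩
      by_contra h
      exact hx' ⟨hx, h⟩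
    have hy' : y ∈ em '' ex S X ∪ pt '' Set.univ := hY ▸ hO.1.2 hy
    rcases hy' with ⟨x, hx, rfl⟩ | ⟨_ | i, -, rfl⟩
    · exact ⟨x, _, (heapp _ _).mpr ⟨hx, rfl⟩, hy⟩
    · obtain ⟨n, h1, -⟩ := hO.2.2 hy
      exact a1 n (h1 n le_rfl)
    · exact a1 i hy
  · have : (fun y => S.mem y Y ∧ ¬ ∃ x, S.App e x y) = fun y => ∃ o, y = pt o := by
      funext y
      apply propext
      constructor
      · rintro ⟨hy, h⟩
        have hy' : y ∈ em '' ex S X ∪ pt '' Set.univ := hY ▸ hy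
        rcases hy' with ⟨x, hx, rfl⟩ | ⟨o, -, rfl⟩
        · exact (h ⟨x, (heapp _ _).mpr ⟨hx, rfl⟩⟩).elim
        · exact ⟨o, rfl⟩
      · rintro ⟨o, rfl⟩
        exact ⟨hPY o, fun ⟨x, hx⟩ => ep x o ((heapp _ _).mp hx).2.symm⟩
    rw [this]
    exact hhf
  · intro y k h
    obtain ⟨o, -, rfl⟩ := (hhapp _ _).mp h
    exact (kP _).mpr ⟨o, rfl⟩
  · intro y y' k h h'
    obtain ⟨o, rfl, rfl⟩ := (hhapp _ _).mp h
    obtain ⟨o', rfl, e⟩ := (hhapp _ _).mp h'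
    rw [kinj e]
  · intro k hk
    obtain ⟨o, rfl⟩ := (kP _).mp hk
    exact ⟨pt o, (hhapp _ _).mpr ⟨o, rfl, rfl⟩⟩
  · intro V _
    constructor
    · intro hV
      obtain ⟨U, hU, -, a2, -⟩ := opU X {o | kk o ∈ ex S V} ⟨V, fun _ => Iff.rfl⟩ subset_rfl
        (fun i _ => by rw [Set.sdiff_eq_empty.mpr (hsub i)]; exact Set.finite_empty) (fun h => by
          obtain ⟨n, hn, h1⟩ := hV w h hw
          obtain ⟨n, rfl⟩ := (hs.isNat _).mp hn
          exact ⟨n + 1, fun i hi => h1 _ ((hs.isNat _).mpr ⟨i, rfl⟩)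
            ((hs.mem_num _ _).mpr ⟨n, hi, rfl⟩), Set.finite_empty.subset fun x hx => hx.2.1 hx.1⟩)
      refine ⟨U, hU, fun y k h => ?_⟩
      obtain ⟨o, rfl, rfl⟩ := (hhapp _ _).mp h
      exact a2 o
    · rintro ⟨U, hU, h⟩ w' hw' hw''
      rw [uniq hs hw'' hw] at hw'
      have a1 : ∀ o, pt o ∈ ex S U ↔ kk o ∈ ex S V := fun o => h _ _ ((hhapp _ _).mpr ⟨o, rfl, rfl⟩)
      obtain ⟨n, h1, -⟩ := ((hT.2 U).mp hU).2.2 ((a1 none).mpr hw')
      refine ⟨num n, (hs.isNat _).mpr ⟨n, rfl⟩, fun m hm hnm => ?_⟩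
      obtain ⟨m, rfl⟩ := (hs.isNat _).mp hm
      obtain ⟨j, hj, e⟩ := (hs.mem_num _ _).mp hnm
      rw [← num_inj hs e] at hj
      exact (a1 (some m)).mp (h1 m hj.le)

end Pool.Agent.P.MP_ec7d96_lc
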